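import Pool.Agent.Helper824_tan.Bdry

set_option autoImplicit false

/-!
# `H^∞ + C` as the closure of the functions `z^{-N} h`, and characters over the point `1`
-/

open MeasureTheory AddCircle Filter Topology
open scoped ENNReal ComplexConjugate

namespace Pool.Agent.Helper824_tan

open Pool.Agent.Helper34

lemma Hinf_add {u v : Linf} (hu : u ∈ Hinf) (hv : v ∈ Hinf) : u + v ∈ Hinf := by
  obtain ⟨F, hF⟩ := hu
  obtain ⟨G, hG⟩ := hv
  exact ⟨_, hF.add hG⟩

lemma Hinf_mul {u v : Linf} (hu : u ∈ Hinf) (hv : v ∈ Hinf) : u * v ∈ Hinf := by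
  obtain ⟨F, hF⟩ := hu
  obtain ⟨G, hG⟩ := hv
  exact ⟨_, hF.mul hG⟩

lemma zz_mem_Hinf (n : ℕ) : zz n ∈ Hinf := ⟨_, zz_bd n⟩

/-- the algebra of the functions `z^{-N} h` with `h ∈ H^∞` -/
noncomputable def A0 : Subalgebra ℂ Linf where
  carrier := {u | ∃ N : ℕ, zz N * u ∈ Hinf}
  mul_mem' := by
    rintro u v ⟨N, hN⟩ ⟨N', hN'⟩
    refine ⟨N + N', ?_⟩
    have e : zz ((N + N' : ℕ) : ℤ) * (u * v) = (zz N * u) * (zz N' * v) := by
      rw [Nat.cast_add, zz_add]; ring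
    rw [e]
    exact Hinf_mul hN hN'
  add_mem' := by
    rintro u v ⟨N, hN⟩ ⟨N', hN'⟩
    refine ⟨N + N', ?_⟩
    have e : zz ((N + N' : ℕ) : ℤ) * (u + v) = zz N' * (zz N * u) + zz N * (zz N' * v) := by
      rw [Nat.cast_add, zz_add]; ring
    rw [e]
    exact Hinf_add (Hinf_mul (zz_mem_Hinf _) hN) (Hinf_mul (zz_mem_Hinf _) hN')
  algebraMap_mem' := fun c => ⟨0, by
    rw [Nat.cast_zero, zz_zero, one_mul]
    exact ⟨_, IsBoundaryFunction.const c⟩⟩

lemma mem_A0 {u : Linf} : u ∈ A0 ↔ ∃ N : ℕ, zz N * u ∈ Hinf := Iff.rfl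

lemma Hinf_sub_A0 {u : Linf} (hu : u ∈ Hinf) : u ∈ A0 := ⟨0, by
  rwa [Nat.cast_zero, zz_zero, one_mul]⟩

lemma zz_mem_A0 (n : ℤ) : zz n ∈ A0 := by
  refine ⟨n.natAbs, ?_⟩
  rw [← zz_add]
  obtain ⟨k, hk⟩ : ∃ k : ℕ, ((n.natAbs : ℤ) + n) = k := ⟨((n.natAbs : ℤ) + n).toNat, by omega⟩
  rw [hk]
  exact zz_mem_Hinf k

/-- continuous functions as members of `L^∞` -/
noncomputable def jj : C(UnitAddCircle, ℂ) →L[ℂ] Linf := ContinuousMap.toLp ⊤ mu ℂ

lemma coeFn_jj (g : C(UnitAddCircle, ℂ)) : ⇑(jj g) =ᵐ[mu] g := ContinuousMap.coeFn_toLp _ _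

lemma jj_mem (g : C(UnitAddCircle, ℂ)) : jj g ∈ A0.topologicalClosure := by
  have h1 : g ∈ (Submodule.span ℂ (Set.range (@fourier (1 : ℝ)))).topologicalClosure := by
    rw [span_fourier_closure_eq_top]
    trivial
  have h2 : Set.MapsTo jj (Submodule.span ℂ (Set.range (@fourier (1 : ℝ))) :
      Set C(UnitAddCircle, ℂ)) (A0 : Set Linf) := by
    intro f hf
    refine Submodule.span_induction (p := fun f _ => jj f ∈ A0) ?_ ?_ ?_ ?_ hf
    · rintro _ ⟨n, rfl⟩
      have : jj (fourier n) = zz n := by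
        apply Lp.ext
        filter_upwards [coeFn_jj (fourier n), coeFn_zz n] with t h1 h2
        rw [h1, h2]
      rw [this]
      exact zz_mem_A0 n
    · rw [map_zero]; exact A0.zero_mem
    · intro x y _ _ hx hy
      rw [map_add]; exact A0.add_mem hx hy
    · intro c x _ hx
      rw [map_smul]; exact A0.smul_mem hx c
  exact map_mem_closure jj.continuous h1 h2

lemma Cont_sub {u : Linf} (hu : u ∈ Cont) : u ∈ A0.topologicalClosure := by
  obtain ⟨c, hc⟩ := hu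
  have : u = jj c := by
    apply Lp.ext
    filter_upwards [hc, coeFn_jj c] with t h1 h2
    rw [h1, h2]
  rw [this]
  exact jj_mem c

lemma zz_mem_Cont (n : ℤ) : zz n ∈ Cont := ⟨fourier n, coeFn_zz n⟩

lemma HinfC_eq : HinfC = A0.topologicalClosure := by
  apply le_antisymm
  · refine Subalgebra.topologicalClosure_minimal ?_ (Subalgebra.isClosed_topologicalClosure _)
    rw [Algebra.adjoin_le_iff]
    rintro u (hu | hu)
    · exact Subalgebra.le_topologicalClosure _ (Hinf_sub_A0 hu)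
    · exact Cont_sub hu
  · refine Subalgebra.topologicalClosure_mono ?_
    rintro u ⟨N, hN⟩
    have e : u = zz (-N) * (zz N * u) := by
      rw [← mul_assoc, ← zz_add, neg_add_cancel, zz_zero, one_mul]
    rw [e]
    exact Subalgebra.mul_mem _ (Algebra.subset_adjoin (Or.inr (zz_mem_Cont _)))
      (Algebra.subset_adjoin (Or.inl hN))

lemma A0_sub {u : Linf} (hu : u ∈ A0) : u ∈ HinfC := by
  rw [HinfC_eq]
  exact Subalgebra.le_topologicalClosure _ hu

lemma Hinf_sub {u : Linf} (hu : u ∈ Hinf) : u ∈ HinfC := A0_sub (Hinf_sub_A0 hu)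

lemma isClosed_HinfC : IsClosed (HinfC : Set Linf) := Subalgebra.isClosed_topologicalClosure _

noncomputable instance : CompleteSpace HinfC := isClosed_HinfC.completeSpace_coe

lemma approx {u : Linf} (hu : u ∈ HinfC) {ε : ℝ} (hε : 0 < ε) : ∃ v ∈ A0, ‖u - v‖ < ε := by
  rw [HinfC_eq] at hu
  have h1 : u ∈ closure (A0 : Set Linf) := hu
  rw [Metric.mem_closure_iff] at h1
  obtain ⟨v, hv, hd⟩ := h1 ε hε
  exact ⟨v, hv, by rwa [dist_eq_norm] at hd⟩

/-- the coordinate function in `H^∞ + C` -/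
noncomputable def zA : HinfC := ⟨zz 1, A0_sub (zz_mem_A0 1)⟩

instance : NormOneClass Linf := ⟨by
  apply le_antisymm
  · apply norm_le_of_ae zero_le_one
    filter_upwards [coeFn_one] with t h
    rw [h, norm_one]
  · have h1 := P_norm 1 (a := 0) (by simp)
    rw [P_one (by simp), norm_one] at h1
    exact h1⟩

instance : NormOneClass HinfC := ⟨norm_one (α := Linf)⟩

/-- characters are contractive -/
lemma char_norm (x : M HinfC) (f : HinfC) : ‖x f‖ ≤ ‖f‖ :=
  spectrum.norm_le_norm_of_mem (WeakDual.CharacterSpace.apply_mem_spectrum x f)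

/-- on the fibre over `1` members of `H^∞ + C` are approximable by members of `H^∞` -/
lemma fibre_approx (f : HinfC) {ε : ℝ} (hε : 0 < ε) :
    ∃ h : HinfC, (h : Linf) ∈ Hinf ∧ ∀ x : M HinfC, x zA = 1 → ‖x f - x h‖ ≤ ε := by
  obtain ⟨v, ⟨N, hN⟩, hv⟩ := approx f.2 hε
  refine ⟨⟨zz N * v, Hinf_sub hN⟩, hN, fun x hx => ?_⟩
  set w : HinfC := ⟨v, A0_sub ⟨N, hN⟩⟩ with hw
  have e : (⟨zz N * v, Hinf_sub hN⟩ : HinfC) = zA ^ N * w := by
    apply Subtype.ext
    change zz N * v = (zz 1) ^ N * v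
    rw [zz_pow]
  rw [e, map_mul, map_pow, hx, one_pow, one_mul, ← map_sub]
  exact (char_norm x _).trans hv.le

/-- limits of Poisson integrals along an ultrafilter -/
lemma exists_lim {ι : Type*} (p : Ultrafilter ι) (a : ι → ℂ) (ha : ∀ᶠ i in p, ‖a i‖ < 1)
    (u : Linf) : ∃ l : ℂ, ‖l‖ ≤ ‖u‖ ∧ Tendsto (fun i => P (a i) u) p (𝓝 l) := by
  have h1 : ∀ᶠ i in p, P (a i) u ∈ Metric.closedBall (0 : ℂ) ‖u‖ := by
    filter_upwards [ha] with i hi
    rw [mem_closedBall_zero_iff]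
    exact P_norm u hi
  have h2 : Metric.closedBall (0 : ℂ) ‖u‖ ∈ p.map (fun i => P (a i) u) := h1
  obtain ⟨l, hl, hlim⟩ := (isCompact_closedBall (0 : ℂ) ‖u‖).ultrafilter_le_nhds
    (p.map (fun i => P (a i) u)) (le_principal_iff.2 h2)
  exact ⟨l, by simpa using hl, hlim⟩

/-- an ultrafilter that tends to `1` within the disc defines a character of `H^∞ + C` -/
theorem exists_char {ι : Type*} (p : Ultrafilter ι) (a : ι → ℂ) (ha : ∀ᶠ i in p, ‖a i‖ < 1)
    (h1 : Tendsto a p (𝓝 1)) :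
    ∃ χ : M HinfC, ∀ u : HinfC, Tendsto (fun i => P (a i) (u : Linf)) p (𝓝 (χ u)) := by
  choose Λ hΛn hΛ using exists_lim p a ha
  have hadd : ∀ u v, Λ (u + v) = Λ u + Λ v := by
    intro u v
    refine tendsto_nhds_unique (hΛ (u + v)) (((hΛ u).add (hΛ v)).congr' ?_)
    filter_upwards [ha] with i hi
    rw [P_add u v hi]
  have hsmul : ∀ (c : ℂ) u, Λ (c • u) = c * Λ u := by
    intro c u
    refine tendsto_nhds_unique (hΛ (c • u)) (((hΛ u).const_mul c).congr' ?_)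
    filter_upwards [ha] with i hi
    rw [P_smul]
  have hone : Λ 1 = 1 := by
    refine tendsto_nhds_unique (hΛ 1) (tendsto_const_nhds.congr' ?_)
    filter_upwards [ha] with i hi
    rw [P_one hi]
  set L : Linf →L[ℂ] ℂ := LinearMap.mkContinuous ⟨⟨Λ, hadd⟩, hsmul⟩ 1
    (fun u => by rw [one_mul]; exact hΛn u) with hL
  have hLΛ : ∀ u, L u = Λ u := fun u => rfl
  have hshift1 : ∀ u, Λ (zz 1 * u) = Λ u := by
    intro u
    have h2 : ∀ η : ℝ, 0 < η → ‖Λ (zz 1 * u) - Λ u‖ ≤ ‖u‖ * (η / 2) := by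
      intro η hη
      have h3 : Tendsto (fun i => ‖P (a i) (zz 1 * u) - P (a i) u‖) p
          (𝓝 ‖Λ (zz 1 * u) - Λ u‖) := ((hΛ (zz 1 * u)).sub (hΛ u)).norm
      have h4 : Tendsto (fun i => ‖u‖ * (η / 2 + (1 - (a i).re) / η)) p
          (𝓝 (‖u‖ * (η / 2 + (1 - (1 : ℂ).re) / η))) :=
        (((((Complex.continuous_re.tendsto 1).comp h1).const_sub 1).div_const η).const_add
          (η / 2)).const_mul ‖u‖
      have h5 : ‖Λ (zz 1 * u) - Λ u‖ ≤ ‖u‖ * (η / 2 + (1 - (1 : ℂ).re) / η) := by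
        refine le_of_tendsto_of_tendsto h3 h4 ?_
        filter_upwards [ha] with i hi
        exact P_shift u hi hη
      simpa using h5
    have h6 : ‖Λ (zz 1 * u) - Λ u‖ ≤ 0 := by
      apply le_of_forall_pos_le_add
      intro ε hε
      have h7 := h2 (2 * ε / (‖u‖ + 1)) (by positivity)
      have h8 : ‖u‖ * (2 * ε / (‖u‖ + 1) / 2) ≤ ε := by
        have hu := norm_nonneg u
        rw [show ‖u‖ * (2 * ε / (‖u‖ + 1) / 2) = ε * (‖u‖ / (‖u‖ + 1)) by field_simp]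
        have h9 : ‖u‖ / (‖u‖ + 1) ≤ 1 := by
          rw [div_le_one (by positivity)]; linarith
        nlinarith
      linarith
    have h10 : ‖Λ (zz 1 * u) - Λ u‖ = 0 := le_antisymm h6 (norm_nonneg _)
    exact sub_eq_zero.1 (norm_eq_zero.1 h10)
  have hshift : ∀ (N : ℕ) u, Λ (zz N * u) = Λ u := by
    intro N
    induction N with
    | zero => intro u; rw [Nat.cast_zero, zz_zero, one_mul]
    | succ N ih =>
      intro u
      have e : zz ((N + 1 : ℕ) : ℤ) * u = zz 1 * (zz N * u) := by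
        rw [Nat.cast_add, Nat.cast_one, zz_add]; ring
      rw [e, hshift1, ih]
  have hmulH : ∀ u ∈ Hinf, ∀ v ∈ Hinf, Λ (u * v) = Λ u * Λ v := by
    rintro u ⟨F, hF⟩ v ⟨G, hG⟩
    refine tendsto_nhds_unique (hΛ (u * v)) (((hΛ u).mul (hΛ v)).congr' ?_)
    filter_upwards [ha] with i hi
    rw [P_bd hF hi, P_bd hG hi, P_bd (hF.mul hG) hi]
  have hmul0 : ∀ u ∈ A0, ∀ v ∈ A0, Λ (u * v) = Λ u * Λ v := by
    rintro u ⟨N, hN⟩ v ⟨N', hN'⟩
    have e : zz ((N + N' : ℕ) : ℤ) * (u * v) = (zz N * u) * (zz N' * v) := by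
      rw [Nat.cast_add, zz_add]; ring
    rw [← hshift (N + N') (u * v), e, hmulH _ hN _ hN', hshift, hshift]
  have hmul : ∀ u ∈ HinfC, ∀ v ∈ HinfC, Λ (u * v) = Λ u * Λ v := by
    have hc : IsClosed {q : Linf × Linf | L (q.1 * q.2) = L q.1 * L q.2} := by
      apply isClosed_eq
      · exact L.continuous.comp continuous_mul
      · exact (L.continuous.comp continuous_fst).mul (L.continuous.comp continuous_snd)
    have hsub : (A0 : Set Linf) ×ˢ (A0 : Set Linf) ⊆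
        {q : Linf × Linf | L (q.1 * q.2) = L q.1 * L q.2} := by
      rintro ⟨u, v⟩ ⟨hu, hv⟩
      exact hmul0 u hu v hv
    intro u hu v hv
    rw [HinfC_eq] at hu hv
    have h2 : (u, v) ∈ closure ((A0 : Set Linf) ×ˢ (A0 : Set Linf)) := by
      rw [closure_prod_eq]
      exact ⟨hu, hv⟩
    exact closure_minimal hsub hc h2
  set φ : WeakDual ℂ HinfC := StrongDual.toWeakDual (L.comp HinfC.toSubmodule.subtypeL) with hφ
  have hφ1 : ∀ u : HinfC, φ u = Λ (u : Linf) := fun u => rfl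
  have hmem : φ ∈ WeakDual.characterSpace ℂ HinfC := by
    refine ⟨fun h0 => ?_, fun u v => ?_⟩
    · have h2 : φ 1 = 0 := by rw [h0]; rfl
      rw [hφ1] at h2
      have h3 : ((1 : HinfC) : Linf) = 1 := rfl
      rw [h3, hone] at h2
      exact one_ne_zero h2
    · rw [hφ1, hφ1, hφ1]
      exact hmul _ u.2 _ v.2
  exact ⟨⟨φ, hmem⟩, fun u => hΛ (u : Linf)⟩

end Pool.Agent.Helper824_tan
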