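import Mathlib

set_option autoImplicit false

/-!
# Bounded analytic functions on the right half plane: limits along ultrafilters, Blaschke products
with zeros at the powers of `2`
-/

open Filter Topology Set Metric

namespace Pool.Agent.Helper824_tan

/-- the right half plane -/
def RH : Set ℂ := {w | 0 < w.re}

lemma isOpen_RH : IsOpen RH := isOpen_lt continuous_const Complex.continuous_re

lemma ball_sub_RH {w : ℂ} : ball w w.re ⊆ RH := by
  intro v hv
  rw [mem_ball, dist_eq_norm] at hv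
  have h1 := Complex.abs_re_le_norm (v - w)
  rw [Complex.sub_re] at h1
  have h2 := (abs_le.1 h1).1
  change 0 < v.re
  linarith

lemma lip {f : ℂ → ℂ} {U : Set ℂ} {C : ℝ} (hf : DifferentiableOn ℂ f U) (hC : ∀ z ∈ U, ‖f z‖ ≤ C)
    {c z : ℂ} {R : ℝ} (hU : ball c R ⊆ U) (hz : z ∈ ball c R) :
    ‖f z - f c‖ ≤ 2 * C / R * ‖z - c‖ := by
  have hR : 0 < R := (dist_nonneg).trans_lt (mem_ball.1 hz)
  have h1 : MapsTo f (ball c R) (closedBall (f c) (2 * C)) := by
    intro w hw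
    rw [mem_closedBall, dist_eq_norm]
    have h2 := hC w (hU hw)
    have h3 := hC c (hU (mem_ball_self hR))
    calc ‖f w - f c‖ ≤ ‖f w‖ + ‖f c‖ := norm_sub_le _ _
      _ ≤ 2 * C := by linarith
  have := Complex.dist_le_div_mul_dist_of_mapsTo_ball (hf.mono hU) h1 hz
  rwa [dist_eq_norm, dist_eq_norm] at this

/-- a limit, along an ultrafilter, of uniformly bounded analytic functions is analytic -/
lemma ulim_diff {ι : Type*} (p : Ultrafilter ι) {U : Set ℂ} (hU : IsOpen U) {f : ι → ℂ → ℂ}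
    {C : ℝ} (hf : ∀ i, DifferentiableOn ℂ (f i) U) (hC : ∀ i, ∀ z ∈ U, ‖f i z‖ ≤ C)
    {g : ℂ → ℂ} (hg : ∀ z ∈ U, Tendsto (fun i => f i z) p (𝓝 (g z))) :
    DifferentiableOn ℂ g U := by
  have hloc : TendstoLocallyUniformlyOn f g p U := by
    rw [Metric.tendstoLocallyUniformlyOn_iff]
    intro ε hε x hx
    obtain ⟨R, hR, hRU⟩ := Metric.isOpen_iff.1 hU x hx
    have hC0 : 0 ≤ C := by
      obtain ⟨i⟩ := p.nonempty_of_mem univ_mem
      exact (norm_nonneg _).trans (hC i x hx)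
    set r : ℝ := min (R / 2) (ε * R / (16 * (C + 1))) with hr
    have hr0 : 0 < r := lt_min (by positivity) (by positivity)
    refine ⟨ball x r, mem_nhdsWithin_of_mem_nhds (ball_mem_nhds x hr0), ?_⟩
    have h1 := hg x hx
    rw [Metric.tendsto_nhds] at h1
    have hrR : r < R := (min_le_left _ _).trans_lt (by linarith)
    have hkey : ∀ i, ∀ z ∈ ball x r, ‖f i z - f i x‖ ≤ ε / 8 := by
      intro i z hz
      have h2 := lip (hf i) (hC i) hRU (ball_subset_ball hrR.le hz)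
      rw [mem_ball, dist_eq_norm] at hz
      have h3 : ‖z - x‖ ≤ ε * R / (16 * (C + 1)) := hz.le.trans (min_le_right _ _)
      calc ‖f i z - f i x‖ ≤ 2 * C / R * ‖z - x‖ := h2
        _ ≤ 2 * C / R * (ε * R / (16 * (C + 1))) := by
          apply mul_le_mul_of_nonneg_left h3 (by positivity)
        _ = ε / 8 * (C / (C + 1)) := by field_simp; ring
        _ ≤ ε / 8 * 1 := by
          apply mul_le_mul_of_nonneg_left _ (by positivity)
          rw [div_le_one (by positivity)]; linarith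
        _ = ε / 8 := mul_one _
    have hkeyg : ∀ z ∈ ball x r, ‖g z - g x‖ ≤ ε / 8 := by
      intro z hz
      have h4 : z ∈ U := hRU (ball_subset_ball hrR.le hz)
      exact le_of_tendsto ((hg z h4).sub (hg x hx)).norm (Eventually.of_forall fun i => hkey i z hz)
    filter_upwards [h1 (ε / 8) (by positivity)] with i hi z hz
    rw [dist_eq_norm] at hi ⊢
    have h5 := hkey i z hz
    have h6 := hkeyg z hz
    calc ‖g z - f i z‖ = ‖(g z - g x) - (f i x - g x) - (f i z - f i x)‖ := by congr 1; ring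
      _ ≤ ‖g z - g x‖ + ‖f i x - g x‖ + ‖f i z - f i x‖ :=
        (norm_sub_le _ _).trans (by gcongr; exact norm_sub_le _ _)
      _ < ε := by linarith
  exact hloc.differentiableOn (Eventually.of_forall hf) hU

/-! ### the Cayley transform -/

/-- the Cayley transform from the right half plane to the disc -/
noncomputable def cay (w : ℂ) : ℂ := (w - 1) / (w + 1)

/-- the inverse Cayley transform -/
noncomputable def psi (z : ℂ) : ℂ := (1 + z) / (1 - z)

lemma add_ne {w : ℂ} (hw : w ∈ RH) {a : ℝ} (ha : 0 ≤ a) : (a : ℂ) + w ≠ 0 := by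
  intro h
  have := congrArg Complex.re h
  have hw' : 0 < w.re := hw
  simp at this
  linarith

lemma cay_lt {w : ℂ} (hw : w ∈ RH) : ‖cay w‖ < 1 := by
  have hw' : 0 < w.re := hw
  have h1 : ‖w - 1‖ < ‖w + 1‖ := by
    apply lt_of_pow_lt_pow_left₀ 2 (norm_nonneg _)
    rw [← Complex.normSq_eq_norm_sq, ← Complex.normSq_eq_norm_sq, Complex.normSq_apply,
      Complex.normSq_apply]
    simp only [Complex.sub_re, Complex.sub_im, Complex.add_re, Complex.add_im, Complex.one_re,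
      Complex.one_im]
    nlinarith
  have h2 : 0 < ‖w + 1‖ := lt_of_le_of_lt (norm_nonneg _) h1
  unfold cay
  rw [norm_div, div_lt_one h2]
  exact h1

lemma cay_mem {w : ℂ} (hw : w ∈ RH) : cay w ∈ ball (0 : ℂ) 1 := by
  rw [mem_ball_zero_iff]; exact cay_lt hw

lemma one_sub_ne {z : ℂ} (hz : ‖z‖ < 1) : 1 - z ≠ 0 := by
  intro h
  have : z = 1 := by linear_combination -h
  rw [this, norm_one] at hz
  exact lt_irrefl _ hz

lemma psi_mem {z : ℂ} (hz : ‖z‖ < 1) : psi z ∈ RH := by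
  have h0 := one_sub_ne hz
  have hns : 0 < Complex.normSq (1 - z) := Complex.normSq_pos.2 h0
  change 0 < (psi z).re
  unfold psi
  rw [Complex.div_re, ← add_div]
  apply div_pos _ hns
  have h1 : Complex.normSq z < 1 := by
    rw [Complex.normSq_eq_norm_sq]
    have := norm_nonneg z
    nlinarith
  rw [Complex.normSq_apply] at h1
  simp only [Complex.add_re, Complex.sub_re, Complex.one_re, Complex.add_im, Complex.sub_im,
    Complex.one_im]
  nlinarith

lemma add_one_ne {w : ℂ} (hw : w ∈ RH) : w + 1 ≠ 0 := by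
  have := add_ne hw (a := 1) zero_le_one
  rwa [Complex.ofReal_one, add_comm] at this

lemma psi_cay {w : ℂ} (hw : w ∈ RH) : psi (cay w) = w := by
  have h0 := add_one_ne hw
  have h1 := one_sub_ne (cay_lt hw)
  unfold psi
  rw [div_eq_iff h1]
  unfold cay
  field_simp
  ring

lemma cay_psi {z : ℂ} (hz : ‖z‖ < 1) : cay (psi z) = z := by
  have h0 := one_sub_ne hz
  have h1 := add_one_ne (psi_mem hz)
  unfold cay
  rw [div_eq_iff h1]
  unfold psi
  field_simp
  ring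

lemma cay_diff : DifferentiableOn ℂ cay RH := by
  intro w hw
  apply DifferentiableAt.differentiableWithinAt
  unfold cay
  exact DifferentiableAt.div (by fun_prop) (by fun_prop) (add_one_ne hw)

lemma psi_diff : DifferentiableOn ℂ psi (ball 0 1) := by
  intro z hz
  apply DifferentiableAt.differentiableWithinAt
  unfold psi
  exact DifferentiableAt.div (by fun_prop) (by fun_prop) (one_sub_ne (by simpa using hz))

/-! ### powers of two -/

/-- `2 ^ n` -/
noncomputable def q (n : ℤ) : ℝ := (2 : ℝ) ^ n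

lemma q_pos (n : ℤ) : 0 < q n := by unfold q; positivity

lemma q_add (m n : ℤ) : q (m + n) = q m * q n := by
  unfold q; exact zpow_add₀ two_ne_zero m n

lemma q_zero : q 0 = 1 := by simp [q]

lemma q_mul_mem {w : ℂ} (hw : w ∈ RH) (n : ℤ) : (q n : ℂ) * w ∈ RH := by
  change 0 < ((q n : ℂ) * w).re
  rw [Complex.re_ofReal_mul]
  exact mul_pos (q_pos n) hw

/-- the Blaschke factor of the half plane with zero `2 ^ n` -/
noncomputable def bf (n : ℤ) (w : ℂ) : ℂ := ((q n : ℂ) - w) / ((q n : ℂ) + w)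

/-- `1 - |bf n|^2` -/
noncomputable def sn (n : ℤ) (w : ℂ) : ℝ := 1 - ‖bf n w‖ ^ 2

lemma sn_eq {n : ℤ} {w : ℂ} (hw : w ∈ RH) : sn n w = 4 * q n * w.re / ‖(q n : ℂ) + w‖ ^ 2 := by
  have h0 : (q n : ℂ) + w ≠ 0 := add_ne hw (q_pos n).le
  have h1 : ‖(q n : ℂ) + w‖ ^ 2 ≠ 0 := by
    have := norm_pos_iff.2 h0
    positivity
  unfold sn bf
  rw [norm_div, div_pow, eq_div_iff h1, sub_mul, div_mul_cancel₀ _ h1, one_mul,
    ← Complex.normSq_eq_norm_sq, ← Complex.normSq_eq_norm_sq, Complex.normSq_apply,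
    Complex.normSq_apply]
  simp only [Complex.sub_re, Complex.sub_im, Complex.add_re, Complex.add_im, Complex.ofReal_re,
    Complex.ofReal_im]
  ring

lemma sn_nonneg {n : ℤ} {w : ℂ} (hw : w ∈ RH) : 0 ≤ sn n w := by
  rw [sn_eq hw]
  have := q_pos n
  have hw' : 0 < w.re := hw
  positivity

lemma bf_le {n : ℤ} {w : ℂ} (hw : w ∈ RH) : ‖bf n w‖ ≤ 1 := by
  have h := sn_nonneg (n := n) hw
  unfold sn at h
  have h2 := norm_nonneg (bf n w)
  nlinarith

lemma one_sub_bf_le {n : ℤ} {w : ℂ} (hw : w ∈ RH) : 1 - sn n w ≤ ‖bf n w‖ := by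
  have h := bf_le (n := n) hw
  have h2 := norm_nonneg (bf n w)
  unfold sn
  nlinarith

lemma bf_diff (n : ℤ) : DifferentiableOn ℂ (bf n) RH := by
  intro w hw
  apply DifferentiableAt.differentiableWithinAt
  unfold bf
  exact DifferentiableAt.div (by fun_prop) (by fun_prop) (add_ne hw (q_pos n).le)

lemma bf_scale (n m : ℤ) {w : ℂ} : bf n ((q m : ℂ) * w) = bf (n - m) w := by
  have h1 : q n = q m * q (n - m) := by rw [← q_add]; congr 1; ring
  have h2 : (q m : ℂ) ≠ 0 := by exact_mod_cast (q_pos m).ne'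
  unfold bf
  rw [h1, Complex.ofReal_mul, ← mul_sub, ← mul_add, mul_div_mul_left _ _ h2]

lemma sn_scale (n m : ℤ) {w : ℂ} : sn n ((q m : ℂ) * w) = sn (n - m) w := by
  unfold sn; rw [bf_scale]

lemma sn_le {n : ℤ} {v : ℂ} (hv : v ∈ RH) (h1 : 1 ≤ ‖v‖) :
    sn n v ≤ 4 * v.re * (1 / 2 : ℝ) ^ n.natAbs := by
  have hre : 0 < v.re := hv
  have hq := q_pos n
  have hlow : q n ^ 2 + ‖v‖ ^ 2 ≤ ‖(q n : ℂ) + v‖ ^ 2 := by
    rw [← Complex.normSq_eq_norm_sq, ← Complex.normSq_eq_norm_sq, Complex.normSq_apply,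
      Complex.normSq_apply]
    simp only [Complex.add_re, Complex.add_im, Complex.ofReal_re, Complex.ofReal_im]
    nlinarith [mul_pos hq hre]
  have hpos : 0 < ‖(q n : ℂ) + v‖ ^ 2 := lt_of_lt_of_le (by positivity) hlow
  rw [sn_eq hv, div_le_iff₀ hpos]
  have hv2 : 1 ≤ ‖v‖ ^ 2 := by nlinarith
  rcases le_total 0 n with hn | hn
  · have e : (1 / 2 : ℝ) ^ n.natAbs * q n = 1 := by
      unfold q
      obtain ⟨k, rfl⟩ := Int.eq_ofNat_of_zero_le hn
      rw [Int.natAbs_natCast, zpow_natCast, ← mul_pow]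
      norm_num
    have hk : 0 ≤ (1 / 2 : ℝ) ^ n.natAbs := by positivity
    calc 4 * q n * v.re = 4 * v.re * ((1 / 2 : ℝ) ^ n.natAbs * q n * q n) := by rw [e]; ring
      _ ≤ 4 * v.re * ((1 / 2 : ℝ) ^ n.natAbs * ‖(q n : ℂ) + v‖ ^ 2) := by
        apply mul_le_mul_of_nonneg_left _ (by positivity)
        rw [mul_assoc]
        apply mul_le_mul_of_nonneg_left _ hk
        nlinarith
      _ = _ := by ring
  · have e : (1 / 2 : ℝ) ^ n.natAbs = q n := by
      unfold q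
      obtain ⟨k, hk⟩ := Int.eq_ofNat_of_zero_le (neg_nonneg.2 hn)
      have h2 : n = -(k : ℤ) := by linarith
      rw [h2, Int.natAbs_neg, Int.natAbs_natCast, zpow_neg, zpow_natCast, one_div, inv_pow]
    rw [e]
    calc 4 * q n * v.re = 4 * v.re * q n * 1 := by ring
      _ ≤ 4 * v.re * q n * ‖(q n : ℂ) + v‖ ^ 2 := by
        apply mul_le_mul_of_nonneg_left _ (by positivity)
        nlinarith

/-! ### geometric sums -/

lemma geo_up (s : Finset ℤ) (c : ℤ) (h : ∀ n ∈ s, c ≤ n) :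
    ∑ n ∈ s, (1 / 2 : ℝ) ^ (n - c).toNat ≤ 2 := by
  have hinj : Set.InjOn (fun n : ℤ => (n - c).toNat) s := by
    intro a ha b hb hab
    have h1 := h a ha
    have h2 := h b hb
    simp only at hab
    omega
  have h3 : ∑ n ∈ s, (1 / 2 : ℝ) ^ (n - c).toNat =
      ∑ k ∈ s.image (fun n : ℤ => (n - c).toNat), (1 / 2 : ℝ) ^ k := by
    rw [Finset.sum_image hinj]
  rw [h3]
  calc _ ≤ ∑' k : ℕ, (1 / 2 : ℝ) ^ k :=
        summable_geometric_two.sum_le_tsum _ (fun _ _ => by positivity)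
    _ = 2 := tsum_geometric_two

lemma geo_far (s : Finset ℤ) (m : ℤ) (j : ℕ) (h : ∀ n ∈ s, (j : ℤ) < |n - m|) :
    ∑ n ∈ s, (1 / 2 : ℝ) ^ (n - m).natAbs ≤ 2 * (1 / 2 : ℝ) ^ j := by
  classical
  have h1 : ∑ n ∈ s with m < n, (1 / 2 : ℝ) ^ (n - m).natAbs ≤ (1 / 2 : ℝ) ^ j := by
    have e : ∀ n ∈ s.filter (fun n => m < n), (1 / 2 : ℝ) ^ (n - m).natAbs =
        (1 / 2 : ℝ) ^ (j + 1) * (1 / 2 : ℝ) ^ (n - (m + j + 1)).toNat := by
      intro n hn
      rw [Finset.mem_filter] at hn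
      have h2 := h n hn.1
      rw [abs_of_pos (by linarith [hn.2])] at h2
      rw [← pow_add]
      congr 1
      omega
    rw [Finset.sum_congr rfl e, ← Finset.mul_sum]
    have h3 := geo_up (s.filter (fun n => m < n)) (m + j + 1) (by
      intro n hn
      rw [Finset.mem_filter] at hn
      have h2 := h n hn.1
      rw [abs_of_pos (by linarith [hn.2])] at h2
      omega)
    calc _ ≤ (1 / 2 : ℝ) ^ (j + 1) * 2 := mul_le_mul_of_nonneg_left h3 (by positivity)
      _ = (1 / 2 : ℝ) ^ j := by rw [pow_succ]; ring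
  have h2 : ∑ n ∈ s with ¬ m < n, (1 / 2 : ℝ) ^ (n - m).natAbs ≤ (1 / 2 : ℝ) ^ j := by
    have e : ∀ n ∈ s.filter (fun n => ¬ m < n), (1 / 2 : ℝ) ^ (n - m).natAbs =
        (1 / 2 : ℝ) ^ (j + 1) * (1 / 2 : ℝ) ^ (-n - (-m + j + 1)).toNat := by
      intro n hn
      rw [Finset.mem_filter] at hn
      have h2 := h n hn.1
      rw [abs_of_nonpos (by linarith [hn.2])] at h2
      rw [← pow_add]
      congr 1
      omega
    rw [Finset.sum_congr rfl e, ← Finset.mul_sum]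
    have h3 := geo_up ((s.filter (fun n => ¬ m < n)).image (fun n => -n)) (-m + j + 1) (by
      intro n hn
      rw [Finset.mem_image] at hn
      obtain ⟨k, hk, rfl⟩ := hn
      rw [Finset.mem_filter] at hk
      have h2 := h k hk.1
      rw [abs_of_nonpos (by linarith [hk.2])] at h2
      omega)
    rw [Finset.sum_image (fun a _ b _ hab => neg_injective hab)] at h3
    calc _ ≤ (1 / 2 : ℝ) ^ (j + 1) * 2 := mul_le_mul_of_nonneg_left h3 (by positivity)
      _ = (1 / 2 : ℝ) ^ j := by rw [pow_succ]; ring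
  rw [← Finset.sum_filter_add_sum_filter_not s (fun n => m < n)]
  linarith

lemma geo_all (s : Finset ℤ) (m : ℤ) : ∑ n ∈ s, (1 / 2 : ℝ) ^ (n - m).natAbs ≤ 3 := by
  classical
  have h1 := geo_far (s.filter (fun n => n ≠ m)) m 0 (by
    intro n hn
    rw [Finset.mem_filter] at hn
    simpa [sub_eq_zero] using hn.2)
  have h2 : ∑ n ∈ s with ¬ (n ≠ m), (1 / 2 : ℝ) ^ (n - m).natAbs ≤ 1 := by
    have h3 : s.filter (fun n => ¬ (n ≠ m)) ⊆ {m} := by
      intro n hn
      rw [Finset.mem_filter] at hn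
      rw [Finset.mem_singleton]
      exact not_not.1 hn.2
    calc _ ≤ ∑ n ∈ {m}, (1 / 2 : ℝ) ^ (n - m).natAbs :=
          Finset.sum_le_sum_of_subset_of_nonneg h3 (fun _ _ _ => by positivity)
      _ = 1 := by simp
  rw [← Finset.sum_filter_add_sum_filter_not s (fun n => n ≠ m)]
  norm_num at h1
  linarith

/-! ### Blaschke products -/

lemma prod_low {ι : Type*} (s : Finset ι) (x : ι → ℝ) (h0 : ∀ i ∈ s, 0 ≤ x i)
    (h1 : ∀ i ∈ s, x i ≤ 1) : 1 - ∑ i ∈ s, (1 - x i) ≤ ∏ i ∈ s, x i := by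
  classical
  induction s using Finset.induction_on with
  | empty => simp
  | insert a s ha ih =>
    rw [Finset.sum_insert ha, Finset.prod_insert ha]
    have h2 := ih (fun i hi => h0 i (Finset.mem_insert_of_mem hi))
      (fun i hi => h1 i (Finset.mem_insert_of_mem hi))
    have h3 : ∏ i ∈ s, x i ≤ 1 :=
      Finset.prod_le_one (fun i hi => h0 i (Finset.mem_insert_of_mem hi))
        (fun i hi => h1 i (Finset.mem_insert_of_mem hi))
    have h4 := h0 a (Finset.mem_insert_self _ _)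
    have h5 := h1 a (Finset.mem_insert_self _ _)
    nlinarith

/-- partial products -/
noncomputable def gN (k : ℕ → ℕ) (N : ℕ) (w : ℂ) : ℂ := ∏ n ∈ Finset.range N, bf n w ^ k n

lemma gN_norm (k : ℕ → ℕ) (N : ℕ) (w : ℂ) :
    ‖gN k N w‖ = ∏ n ∈ Finset.range N, ‖bf n w‖ ^ k n := by
  unfold gN; rw [norm_prod]; simp_rw [norm_pow]

lemma gN_le_one (k : ℕ → ℕ) (N : ℕ) {w : ℂ} (hw : w ∈ RH) : ‖gN k N w‖ ≤ 1 := by
  rw [gN_norm]
  exact Finset.prod_le_one (fun n _ => by positivity)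
    (fun n _ => pow_le_one₀ (norm_nonneg _) (bf_le hw))

lemma gN_le (k : ℕ → ℕ) {N n : ℕ} (hn : n < N) {w : ℂ} (hw : w ∈ RH) :
    ‖gN k N w‖ ≤ ‖bf n w‖ ^ k n := by
  classical
  rw [gN_norm, ← Finset.mul_prod_erase _ _ (Finset.mem_range.2 hn)]
  have h1 : ∏ m ∈ (Finset.range N).erase n, ‖bf m w‖ ^ k m ≤ 1 :=
    Finset.prod_le_one (fun n _ => by positivity)
      (fun n _ => pow_le_one₀ (norm_nonneg _) (bf_le hw))
  have h2 : 0 ≤ ‖bf n w‖ ^ k n := by positivity
  nlinarith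

lemma pow_low {x s : ℝ} (h0 : 0 ≤ x) (h1 : x ≤ 1) (h2 : 1 - s ≤ x) (k : ℕ) :
    1 - x ^ k ≤ k * s := by
  have h3 := prod_low (Finset.range k) (fun _ => x) (fun _ _ => h0) (fun _ _ => h1)
  rw [Finset.prod_const, Finset.sum_const, Finset.card_range, nsmul_eq_mul] at h3
  have h4 : (0 : ℝ) ≤ k := Nat.cast_nonneg k
  nlinarith

lemma gN_low (k : ℕ → ℕ) (N : ℕ) {w : ℂ} (hw : w ∈ RH) :
    1 - ∑ n ∈ Finset.range N, (k n : ℝ) * sn n w ≤ ‖gN k N w‖ := by
  rw [gN_norm]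
  refine le_trans ?_ (prod_low _ _ (fun n _ => by positivity)
    (fun n _ => pow_le_one₀ (norm_nonneg _) (bf_le hw)))
  apply sub_le_sub_left
  apply Finset.sum_le_sum
  intro n _
  exact pow_low (norm_nonneg _) (bf_le hw) (one_sub_bf_le hw) _

lemma gN_diff (k : ℕ → ℕ) (N : ℕ) : DifferentiableOn ℂ (gN k N) RH := by
  unfold gN
  induction N with
  | zero => simp only [Finset.range_zero, Finset.prod_empty]; exact differentiableOn_const _
  | succ N ih =>
    simp only [Finset.prod_range_succ]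
    exact ih.mul ((bf_diff N).pow _)

/-- Blaschke products with zeros of order `k n` at `2 ^ n`, `n ≥ 0` -/
theorem exists_blaschke (k : ℕ → ℕ) : ∃ g : ℂ → ℂ, DifferentiableOn ℂ g RH ∧
    (∀ w ∈ RH, ‖g w‖ ≤ 1) ∧ (∀ n : ℕ, ∀ w ∈ RH, ‖g w‖ ≤ ‖bf n w‖ ^ k n) ∧
    ∀ w ∈ RH, ∀ c : ℝ, (∀ N, ∑ n ∈ Finset.range N, (k n : ℝ) * sn n w ≤ c) → 1 - c ≤ ‖g w‖ := by
  have hlim : ∀ w : ℂ, ∃ l : ℂ, w ∈ RH → Tendsto (fun N => gN k N w) (hyperfilter ℕ) (𝓝 l) := by
    intro w
    by_cases hw : w ∈ RH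
    · have h0 : ∀ᶠ N in (hyperfilter ℕ : Filter ℕ), gN k N w ∈ closedBall (0 : ℂ) 1 :=
        Eventually.of_forall fun N => by
          rw [mem_closedBall_zero_iff]
          exact gN_le_one k N hw
      have h1 : closedBall (0 : ℂ) 1 ∈ (hyperfilter ℕ).map (fun N => gN k N w) := h0
      obtain ⟨l, -, hl⟩ := (isCompact_closedBall (0 : ℂ) 1).ultrafilter_le_nhds
        ((hyperfilter ℕ).map (fun N => gN k N w)) (le_principal_iff.2 h1)
      exact ⟨l, fun _ => hl⟩
    · exact ⟨0, fun h => absurd h hw⟩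
  choose g hg using hlim
  have hev : ∀ n : ℕ, ∀ᶠ N in (hyperfilter ℕ : Filter ℕ), n < N := by
    intro n
    have h1 : ∀ᶠ N in atTop, n < N := eventually_gt_atTop n
    rw [← Nat.cofinite_eq_atTop] at h1
    exact hyperfilter_le_cofinite h1
  refine ⟨g, ?_, ?_, ?_, ?_⟩
  · exact ulim_diff (hyperfilter ℕ) isOpen_RH (gN_diff k) (fun N w hw => gN_le_one k N hw)
      (fun w hw => hg w hw)
  · intro w hw
    exact le_of_tendsto (hg w hw).norm (Eventually.of_forall fun N => gN_le_one k N hw)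
  · intro n w hw
    exact le_of_tendsto (hg w hw).norm ((hev n).mono fun N hN => gN_le k hN hw)
  · intro w hw c hc
    refine ge_of_tendsto (hg w hw).norm (Eventually.of_forall fun N => ?_)
    exact (sub_le_sub_left (hc N) 1).trans (gN_low k N hw)

lemma sum_sn_le {v : ℂ} (hv : v ∈ RH) (h1 : 1 ≤ ‖v‖) (m : ℤ) (s : Finset ℕ) {c : ℝ}
    (hc : ∑ n ∈ s, (1 / 2 : ℝ) ^ ((n : ℤ) - m).natAbs ≤ c) :
    ∑ n ∈ s, sn n ((q m : ℂ) * v) ≤ 4 * v.re * c := by
  have hre : 0 < v.re := hv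
  calc ∑ n ∈ s, sn n ((q m : ℂ) * v) ≤ ∑ n ∈ s, 4 * v.re * (1 / 2 : ℝ) ^ ((n : ℤ) - m).natAbs := by
        apply Finset.sum_le_sum
        intro n _
        rw [sn_scale]
        exact sn_le hv h1
    _ = 4 * v.re * ∑ n ∈ s, (1 / 2 : ℝ) ^ ((n : ℤ) - m).natAbs := by rw [Finset.mul_sum]
    _ ≤ 4 * v.re * c := mul_le_mul_of_nonneg_left hc (by positivity)

lemma cast_sum (s : Finset ℕ) (m : ℤ) : ∑ n ∈ s, (1 / 2 : ℝ) ^ ((n : ℤ) - m).natAbs =
    ∑ n ∈ s.image (fun n : ℕ => (n : ℤ)), (1 / 2 : ℝ) ^ (n - m).natAbs := by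
  rw [Finset.sum_image (fun a _ b _ hab => by exact_mod_cast hab)]

lemma sum_all {v : ℂ} (hv : v ∈ RH) (h1 : 1 ≤ ‖v‖) (m : ℤ) (s : Finset ℕ) :
    ∑ n ∈ s, sn n ((q m : ℂ) * v) ≤ 12 * v.re := by
  have := sum_sn_le hv h1 m s (c := 3) (by rw [cast_sum]; exact geo_all _ m)
  linarith

lemma sum_far {v : ℂ} (hv : v ∈ RH) (h1 : 1 ≤ ‖v‖) (h2 : ‖v‖ ≤ 2) (m : ℤ) (s : Finset ℕ) (j : ℕ)
    (h : ∀ n ∈ s, (j : ℤ) < |(n : ℤ) - m|) :
    ∑ n ∈ s, sn n ((q m : ℂ) * v) ≤ 16 * (1 / 2 : ℝ) ^ j := by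
  have h3 := sum_sn_le hv h1 m s (c := 2 * (1 / 2 : ℝ) ^ j) (by
    rw [cast_sum]
    apply geo_far
    intro n hn
    rw [Finset.mem_image] at hn
    obtain ⟨a, ha, rfl⟩ := hn
    exact h a ha)
  have h4 : v.re ≤ 2 := (Complex.re_le_norm v).trans h2
  have h5 : (0 : ℝ) < (1 / 2 : ℝ) ^ j := by positivity
  nlinarith

/-- the Blaschke product with simple zeros at `2 ^ n`, `n ∈ A`, `n ≥ 0` -/
theorem exists_b (A : Set ℤ) : ∃ b : ℂ → ℂ, DifferentiableOn ℂ b RH ∧ (∀ w ∈ RH, ‖b w‖ ≤ 1) ∧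
    (∀ n ∈ A, 0 ≤ n → b (q n) = 0) ∧
    (∀ (m : ℤ) (v : ℂ), v ∈ RH → 1 ≤ ‖v‖ → 1 - 12 * v.re ≤ ‖b ((q m : ℂ) * v)‖) ∧
    ∀ (m : ℤ) (v : ℂ) (j : ℕ), v ∈ RH → 1 ≤ ‖v‖ → ‖v‖ ≤ 2 → (∀ n ∈ A, (j : ℤ) < |n - m|) →
      1 - 16 * (1 / 2 : ℝ) ^ j ≤ ‖b ((q m : ℂ) * v)‖ := by
  classical
  obtain ⟨b, hb1, hb2, hb3, hb4⟩ := exists_blaschke (fun n => if (n : ℤ) ∈ A then 1 else 0)
  have hsum : ∀ (N : ℕ) (w : ℂ),
      ∑ n ∈ Finset.range N, ((if (n : ℤ) ∈ A then 1 else 0 : ℕ) : ℝ) * sn n w =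
      ∑ n ∈ (Finset.range N).filter (fun n : ℕ => (n : ℤ) ∈ A), sn n w := by
    intro N w
    rw [Finset.sum_filter]
    apply Finset.sum_congr rfl
    intro n _
    split_ifs <;> simp
  refine ⟨b, hb1, hb2, ?_, ?_, ?_⟩
  · intro n hn hn0
    obtain ⟨k, rfl⟩ := Int.eq_ofNat_of_zero_le hn0
    have hk : (q (k : ℤ) : ℂ) ∈ RH := by
      change 0 < (q (k : ℤ) : ℂ).re
      rw [Complex.ofReal_re]; exact q_pos _
    have h1 := hb3 k _ hk
    rw [if_pos hn, pow_one] at h1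
    have h2 : bf k (q (k : ℤ) : ℂ) = 0 := by
      unfold bf; rw [sub_self, zero_div]
    rw [h2, norm_zero] at h1
    exact norm_eq_zero.1 (le_antisymm h1 (norm_nonneg _))
  · intro m v hv h1
    apply hb4 _ (q_mul_mem hv m)
    intro N
    rw [hsum]
    exact sum_all hv h1 m _
  · intro m v j hv h1 h2 h3
    apply hb4 _ (q_mul_mem hv m)
    intro N
    rw [hsum]
    apply sum_far hv h1 h2 m _ j
    intro n hn
    rw [Finset.mem_filter] at hn
    exact h3 _ hn.2

/-- Blaschke products with zeros of high order near the sets `A j` -/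
theorem exists_g (A : ℕ → Set ℤ) : ∃ g : ℂ → ℂ, DifferentiableOn ℂ g RH ∧ (∀ w ∈ RH, ‖g w‖ ≤ 1) ∧
    (∀ (n : ℤ) (J : ℕ), (J : ℤ) ≤ n → (∀ j < J, n ∈ A j) →
      ∀ w ∈ RH, ‖g w‖ ≤ ‖bf n w‖ ^ (J - 6)) ∧
    ∀ (m : ℤ) (v : ℂ), v ∈ RH → 1 ≤ ‖v‖ → ‖v‖ ≤ 2 →
      (∀ j : ℕ, v.re < (1 / 2 : ℝ) ^ j ∨ ∀ n ∈ A j, (j : ℤ) < |n - m|) →
      1 / 2 ≤ ‖g ((q m : ℂ) * v)‖ := by
  classical
  set T : ℕ → ℕ → Finset ℕ := fun N n => (Finset.range N).filter
    (fun j : ℕ => 6 ≤ j ∧ (n : ℤ) ∈ A j) with hT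
  obtain ⟨g, hg1, hg2, hg3, hg4⟩ := exists_blaschke (fun n => (T (n + 1) n).card)
  refine ⟨g, hg1, hg2, ?_, ?_⟩
  · intro n J hJ hA w hw
    obtain ⟨k, rfl⟩ := Int.eq_ofNat_of_zero_le ((Int.natCast_nonneg J).trans hJ)
    refine (hg3 k w hw).trans (pow_le_pow_of_le_one (norm_nonneg _) (bf_le hw) ?_)
    have h1 : Finset.Ico 6 J ⊆ T (k + 1) k := by
      intro j hj
      rw [Finset.mem_Ico] at hj
      rw [hT]
      simp only [Finset.mem_filter, Finset.mem_range]
      refine ⟨?_, hj.1, hA j hj.2⟩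
      have : J ≤ k := by exact_mod_cast hJ
      omega
    have h2 := Finset.card_le_card h1
    rwa [Nat.card_Ico] at h2
  · intro m v hv h1 h2 h3
    have key : ∀ N, ∑ n ∈ Finset.range N, ((T (n + 1) n).card : ℝ) * sn n ((q m : ℂ) * v) ≤
        1 / 2 := by
      intro N
      have hw := q_mul_mem hv m
      have e1 : ∑ n ∈ Finset.range N, ((T (n + 1) n).card : ℝ) * sn n ((q m : ℂ) * v) ≤
          ∑ n ∈ Finset.range N, ∑ j ∈ T N n, sn n ((q m : ℂ) * v) := by
        apply Finset.sum_le_sum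
        intro n hn
        rw [Finset.sum_const, nsmul_eq_mul]
        apply mul_le_mul_of_nonneg_right _ (sn_nonneg hw)
        rw [Finset.mem_range] at hn
        have : T (n + 1) n ⊆ T N n := by
          intro j hj
          simp only [hT, Finset.mem_filter, Finset.mem_range] at hj ⊢
          exact ⟨by omega, hj.2⟩
        exact_mod_cast Finset.card_le_card this
      have e2 : ∑ n ∈ Finset.range N, ∑ j ∈ T N n, sn n ((q m : ℂ) * v) =
          ∑ j ∈ (Finset.range N).filter (fun j => 6 ≤ j),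
            ∑ n ∈ (Finset.range N).filter (fun n : ℕ => (n : ℤ) ∈ A j), sn n ((q m : ℂ) * v) := by
        apply Finset.sum_comm'
        intro n j
        simp only [hT, Finset.mem_filter, Finset.mem_range]
        tauto
      have e3 : ∀ j ∈ (Finset.range N).filter (fun j => 6 ≤ j),
          ∑ n ∈ (Finset.range N).filter (fun n : ℕ => (n : ℤ) ∈ A j), sn n ((q m : ℂ) * v) ≤
            16 * (1 / 2 : ℝ) ^ j := by
        intro j _
        rcases h3 j with h4 | h4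
        · refine (sum_all hv h1 m _).trans ?_
          have : (0 : ℝ) < (1 / 2 : ℝ) ^ j := by positivity
          linarith
        · apply sum_far hv h1 h2 m _ j
          intro n hn
          rw [Finset.mem_filter] at hn
          exact h4 _ hn.2
      have e4 : ∑ j ∈ (Finset.range N).filter (fun j => 6 ≤ j), 16 * (1 / 2 : ℝ) ^ j ≤ 1 / 2 := by
        have h5 := geo_up (((Finset.range N).filter (fun j => 6 ≤ j)).image
          (fun n : ℕ => (n : ℤ))) 6 (by
            intro n hn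
            rw [Finset.mem_image] at hn
            obtain ⟨a, ha, rfl⟩ := hn
            rw [Finset.mem_filter] at ha
            exact_mod_cast ha.2)
        rw [Finset.sum_image (fun a _ b _ hab => by exact_mod_cast hab)] at h5
        have h6 : ∑ j ∈ (Finset.range N).filter (fun j => 6 ≤ j), 16 * (1 / 2 : ℝ) ^ j =
            1 / 4 * ∑ j ∈ (Finset.range N).filter (fun j => 6 ≤ j),
              (1 / 2 : ℝ) ^ ((j : ℤ) - 6).toNat := by
          rw [Finset.mul_sum]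
          apply Finset.sum_congr rfl
          intro j hj
          rw [Finset.mem_filter] at hj
          obtain ⟨i, rfl⟩ := Nat.exists_eq_add_of_le hj.2
          have : (((6 + i : ℕ) : ℤ) - 6).toNat = i := by omega
          rw [this, pow_add]
          ring
        rw [h6]
        linarith
      calc _ ≤ _ := e1
        _ = _ := e2
        _ ≤ _ := Finset.sum_le_sum e3
        _ ≤ 1 / 2 := e4
    have := hg4 _ (q_mul_mem hv m) (1 / 2) key
    linarith

end Pool.Agent.Helper824_tan
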