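import Pool.Agent.Helper824_tan.Defs
import Pool.Agent.Helper34.Dg.Alg

set_option autoImplicit false

/-!
# Boundary functions and Poisson integrals
-/

open MeasureTheory AddCircle Filter Topology
open scoped ENNReal ComplexConjugate

namespace Pool.Agent.Helper824_tan

open Pool.Agent.Helper34

/-- bounded analytic functions on the disc -/
structure BA (F : ℂ → ℂ) : Prop where
  diff : DifferentiableOn ℂ F (Metric.ball 0 1)
  bdd : ∃ C : ℝ, ∀ z ∈ Metric.ball (0 : ℂ) 1, ‖F z‖ ≤ C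

lemma BA.add {F G : ℂ → ℂ} (hF : BA F) (hG : BA G) : BA (fun z => F z + G z) := by
  refine ⟨hF.diff.add hG.diff, ?_⟩
  obtain ⟨C, hC⟩ := hF.bdd
  obtain ⟨D, hD⟩ := hG.bdd
  exact ⟨C + D, fun z hz => (norm_add_le _ _).trans (add_le_add (hC z hz) (hD z hz))⟩

lemma BA.mul {F G : ℂ → ℂ} (hF : BA F) (hG : BA G) : BA (fun z => F z * G z) := by
  refine ⟨hF.diff.mul hG.diff, ?_⟩
  obtain ⟨C, hC⟩ := hF.bdd
  obtain ⟨D, hD⟩ := hG.bdd
  refine ⟨C * D, fun z hz => ?_⟩
  rw [norm_mul]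
  exact mul_le_mul (hC z hz) (hD z hz) (norm_nonneg _) ((norm_nonneg _).trans (hC z hz))

lemma BA.const (c : ℂ) : BA (fun _ => c) := ⟨differentiableOn_const _, ⟨‖c‖, fun _ _ => le_rfl⟩⟩

lemma IsBoundaryFunction.ba {F : ℂ → ℂ} {u : Linf} (h : IsBoundaryFunction F u) : BA F :=
  ⟨h.1, h.2.1⟩

lemma IsBoundaryFunction.add {F G : ℂ → ℂ} {u v : Linf} (h : IsBoundaryFunction F u)
    (h' : IsBoundaryFunction G v) : IsBoundaryFunction (fun z => F z + G z) (u + v) := by
  refine ⟨(h.ba.add h'.ba).diff, (h.ba.add h'.ba).bdd, ?_⟩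
  filter_upwards [h.2.2, h'.2.2, coeFn_add u v] with t h1 h2 h3
  rw [h3]
  exact h1.add h2

lemma IsBoundaryFunction.mul {F G : ℂ → ℂ} {u v : Linf} (h : IsBoundaryFunction F u)
    (h' : IsBoundaryFunction G v) : IsBoundaryFunction (fun z => F z * G z) (u * v) := by
  refine ⟨(h.ba.mul h'.ba).diff, (h.ba.mul h'.ba).bdd, ?_⟩
  filter_upwards [h.2.2, h'.2.2, coeFn_mul u v] with t h1 h2 h3
  rw [h3]
  exact h1.mul h2

lemma coeFn_algebraMap (c : ℂ) : ⇑(algebraMap ℂ Linf c) =ᵐ[mu] fun _ => c := by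
  rw [Algebra.algebraMap_eq_smul_one]
  filter_upwards [coeFn_smul c 1, coeFn_one] with t h1 h2
  rw [h1, h2, mul_one]

lemma IsBoundaryFunction.const (c : ℂ) :
    IsBoundaryFunction (fun _ => c) (algebraMap ℂ Linf c) := by
  refine ⟨(BA.const c).diff, (BA.const c).bdd, ?_⟩
  filter_upwards [coeFn_algebraMap c] with t h1
  rw [h1]
  exact tendsto_const_nhds

lemma IsBoundaryFunction.unique {F : ℂ → ℂ} {u v : Linf} (h : IsBoundaryFunction F u)
    (h' : IsBoundaryFunction F v) : u = v := by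
  apply Lp.ext
  filter_upwards [h.2.2, h'.2.2] with t h1 h2
  exact tendsto_nhds_unique h1 h2

lemma IsBoundaryFunction.congr {F G : ℂ → ℂ} {u : Linf} (h : IsBoundaryFunction F u)
    (hFG : ∀ z ∈ Metric.ball (0 : ℂ) 1, G z = F z) : IsBoundaryFunction G u := by
  obtain ⟨C, hC⟩ := h.2.1
  refine ⟨h.1.congr hFG, ⟨C, fun z hz => by rw [hFG z hz]; exact hC z hz⟩, ?_⟩
  filter_upwards [h.2.2] with t ht
  refine ht.congr' ?_
  filter_upwards [Ioo_mem_nhdsLT (one_pos : (0 : ℝ) < 1)] with r hr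
  refine (hFG _ ?_).symm
  rw [mem_ball_zero_iff, norm_mul, Dg.e_norm 1 t, mul_one, Complex.norm_real, Real.norm_eq_abs,
    abs_of_pos hr.1]
  exact hr.2

lemma IsBoundaryFunction.rep {F : ℂ → ℂ} {u : Linf} (h : IsBoundaryFunction F u) :
    (u : UnitAddCircle → ℂ) ∈ Dg.HInf ∧ ∀ a, ‖a‖ < 1 → Dg.ext u a = F a := by
  obtain ⟨g, hg, hge, hgb⟩ := Dg.bh_rep (G := F) ⟨h.1, h.2.1⟩
  have h1 : g =ᵐ[mu] u := by
    filter_upwards [hgb, h.2.2] with t h1 h2
    exact tendsto_nhds_unique h1 h2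
  refine ⟨Dg.congr_HInf hg h1, fun a ha => ?_⟩
  rw [← hge a (by simpa using ha)]
  unfold Dg.ext
  simp_rw [fourierCoeff_congr_ae h1]

lemma exists_bd {F : ℂ → ℂ} (h : BA F) : ∃ u : Linf, IsBoundaryFunction F u := by
  obtain ⟨g, hg, hge, hgb⟩ := Dg.bh_rep (G := F) ⟨h.diff, h.bdd⟩
  refine ⟨hg.1.toLp g, h.diff, h.bdd, ?_⟩
  filter_upwards [hgb, hg.1.coeFn_toLp] with t h1 h2
  rw [h2]
  exact h1

/-- a bound on the disc is a bound for the boundary function -/
lemma IsBoundaryFunction.norm_le {F : ℂ → ℂ} {u : Linf} (h : IsBoundaryFunction F u) {C : ℝ}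
    (hC : ∀ z ∈ Metric.ball (0 : ℂ) 1, ‖F z‖ ≤ C) : ‖u‖ ≤ C := by
  have h0 : 0 ≤ C := (norm_nonneg _).trans (hC 0 (by simp))
  apply norm_le_of_ae h0
  filter_upwards [h.2.2] with t ht
  refine le_of_tendsto ht.norm ?_
  filter_upwards [Ioo_mem_nhdsLT (one_pos : (0 : ℝ) < 1)] with r hr
  refine hC _ ?_
  rw [mem_ball_zero_iff, norm_mul, Dg.e_norm 1 t, mul_one, Complex.norm_real, Real.norm_eq_abs,
    abs_of_pos hr.1]
  exact hr.2

/-- the Poisson integral -/
noncomputable def P (a : ℂ) (u : Linf) : ℂ := ∫ t, u t * (Dg.pk a t : ℂ) ∂mu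

lemma P_bd {F : ℂ → ℂ} {u : Linf} (h : IsBoundaryFunction F u) {a : ℂ} (ha : ‖a‖ < 1) :
    P a u = F a := by
  rw [P, Dg.int_pk_HInf h.rep.1 ha, h.rep.2 a ha]

lemma integrable_pk {a : ℂ} (ha : ‖a‖ < 1) : Integrable (Dg.pk a) mu :=
  Dg.cont_intR (Dg.pk_cont ha)

lemma integrable_P (u : Linf) {a : ℂ} (ha : ‖a‖ < 1) :
    Integrable (fun t => u t * (Dg.pk a t : ℂ)) mu := by
  refine Integrable.mono' ((integrable_pk ha).const_mul ‖u‖) ?_ ?_
  · exact (Lp.aestronglyMeasurable u).mul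
      (Complex.continuous_ofReal.comp (Dg.pk_cont ha)).aestronglyMeasurable
  · filter_upwards [ae_norm_le u] with t ht
    rw [norm_mul, Complex.norm_real, Real.norm_of_nonneg (Dg.pk_nonneg ha t)]
    exact mul_le_mul_of_nonneg_right ht (Dg.pk_nonneg ha t)

lemma P_add (u v : Linf) {a : ℂ} (ha : ‖a‖ < 1) : P a (u + v) = P a u + P a v := by
  unfold P
  rw [← integral_add (integrable_P u ha) (integrable_P v ha)]
  apply integral_congr_ae
  filter_upwards [coeFn_add u v] with t h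
  rw [h]; ring

lemma P_smul (c : ℂ) (u : Linf) (a : ℂ) : P a (c • u) = c * P a u := by
  unfold P
  rw [← integral_const_mul]
  apply integral_congr_ae
  filter_upwards [coeFn_smul c u] with t h
  rw [h]; ring

lemma P_norm (u : Linf) {a : ℂ} (ha : ‖a‖ < 1) : ‖P a u‖ ≤ ‖u‖ := by
  unfold P
  calc ‖∫ t, u t * (Dg.pk a t : ℂ) ∂mu‖ ≤ ∫ t, ‖u‖ * Dg.pk a t ∂mu := by
        apply norm_integral_le_of_norm_le ((integrable_pk ha).const_mul _)
        filter_upwards [ae_norm_le u] with t ht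
        rw [norm_mul, Complex.norm_real, Real.norm_of_nonneg (Dg.pk_nonneg ha t)]
        exact mul_le_mul_of_nonneg_right ht (Dg.pk_nonneg ha t)
    _ = ‖u‖ := by rw [integral_const_mul, Dg.int_pk ha, mul_one]

lemma P_one {a : ℂ} (ha : ‖a‖ < 1) : P a 1 = 1 := by
  have h := IsBoundaryFunction.const 1
  rw [map_one] at h
  rw [P_bd h ha]

/-- the monomials -/
noncomputable def zz (n : ℤ) : Linf := fourierLp ⊤ n

lemma coeFn_zz (n : ℤ) : ⇑(zz n) =ᵐ[mu] fourier n := coeFn_fourierLp ⊤ n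

lemma zz_add (m n : ℤ) : zz (m + n) = zz m * zz n := by
  apply Lp.ext
  filter_upwards [coeFn_zz (m + n), coeFn_mul (zz m) (zz n), coeFn_zz m, coeFn_zz n]
    with t h1 h2 h3 h4
  rw [h1, h2, h3, h4, fourier_add]

lemma zz_zero : zz 0 = 1 := by
  apply Lp.ext
  filter_upwards [coeFn_zz 0, coeFn_one] with t h1 h2
  rw [h1, h2, fourier_zero]

lemma zz_pow (n : ℕ) : zz (n : ℤ) = zz 1 ^ n := by
  induction n with
  | zero => rw [Nat.cast_zero, zz_zero, pow_zero]
  | succ n ih => rw [Nat.cast_succ, zz_add, ih, pow_succ]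

lemma zz_bd (n : ℕ) : IsBoundaryFunction (fun z => z ^ n) (zz n) := by
  refine ⟨(differentiable_pow n).differentiableOn, ⟨1, fun z hz => ?_⟩, ?_⟩
  · rw [norm_pow]
    exact pow_le_one₀ (norm_nonneg _) (by simpa using (mem_ball_zero_iff.1 hz).le)
  · filter_upwards [coeFn_zz n] with t ht
    rw [ht]
    have h1 : (fourier (n : ℤ) t : ℂ) = ((1 : ℝ) * fourier 1 t : ℂ) ^ n := by
      rw [Complex.ofReal_one, one_mul]
      exact Dg.e_nat n t
    rw [h1]
    have h2 : Tendsto (fun r : ℝ => ((r : ℂ) * fourier 1 t) ^ n) (𝓝 1)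
        (𝓝 (((1 : ℝ) * fourier 1 t : ℂ) ^ n)) :=
      (by fun_prop : Continuous fun r : ℝ => ((r : ℂ) * fourier 1 t) ^ n).tendsto 1
    exact h2.mono_left nhdsWithin_le_nhds

lemma zz_one_bd : IsBoundaryFunction (fun z => z) (zz 1) := by
  have := zz_bd 1
  simpa using this

lemma norm_zz_mul_le (n : ℤ) (u : Linf) : ‖zz n * u‖ ≤ ‖u‖ := by
  apply norm_le_of_ae (norm_nonneg _)
  filter_upwards [coeFn_mul (zz n) u, coeFn_zz n, ae_norm_le u] with t h1 h2 h3
  rw [h1, h2, norm_mul, Dg.e_norm n t, one_mul]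
  exact h3

lemma P_shift (u : Linf) {a : ℂ} (ha : ‖a‖ < 1) {η : ℝ} (hη : 0 < η) :
    ‖P a (zz 1 * u) - P a u‖ ≤ ‖u‖ * (η / 2 + (1 - a.re) / η) := by
  have h1 : P a (zz 1 * u) - P a u = ∫ t, (fourier 1 t - 1) * u t * (Dg.pk a t : ℂ) ∂mu := by
    unfold P
    rw [← integral_sub (integrable_P _ ha) (integrable_P _ ha)]
    apply integral_congr_ae
    filter_upwards [coeFn_mul (zz 1) u, coeFn_zz 1] with t h1 h2
    rw [h1, h2]; ring
  have hre : ∫ t, (fourier 1 t : ℂ).re * Dg.pk a t ∂mu = a.re := by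
    have h2 : P a (zz 1) = a := P_bd zz_one_bd ha
    have h3 : (P a (zz 1)).re = ∫ t, (zz 1 t * (Dg.pk a t : ℂ)).re ∂mu :=
      (integral_re (integrable_P _ ha)).symm
    rw [h2] at h3
    rw [h3]
    apply integral_congr_ae
    filter_upwards [coeFn_zz 1] with t ht
    rw [ht, Complex.re_mul_ofReal]
  have hcont : Continuous fun t : UnitAddCircle => (fourier 1 t : ℂ).re :=
    Complex.continuous_re.comp (fourier 1).continuous
  have hint : Integrable (fun t => (fourier 1 t : ℂ).re * Dg.pk a t) mu :=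
    Dg.cont_intR (hcont.mul (Dg.pk_cont ha))
  rw [h1]
  calc ‖∫ t, (fourier 1 t - 1) * u t * (Dg.pk a t : ℂ) ∂mu‖
      ≤ ∫ t, ‖u‖ * ((η / 2 + 1 / η) * Dg.pk a t - 1 / η * ((fourier 1 t : ℂ).re * Dg.pk a t))
          ∂mu := by
        apply norm_integral_le_of_norm_le
        · exact (((integrable_pk ha).const_mul _).sub (hint.const_mul _)).const_mul _
        · filter_upwards [ae_norm_le u] with t ht
          have hpk := Dg.pk_nonneg ha t
          rw [norm_mul, norm_mul, Complex.norm_real, Real.norm_of_nonneg hpk]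
          have hsq : ‖(fourier 1 t : ℂ) - 1‖ ^ 2 = 2 - 2 * (fourier 1 t : ℂ).re := by
            have e1 : ‖(fourier 1 t : ℂ)‖ ^ 2 = 1 := by
              rw [Dg.e_norm 1 t]; norm_num
            rw [← Complex.normSq_eq_norm_sq, Complex.normSq_apply] at e1 ⊢
            simp only [Complex.sub_re, Complex.sub_im, Complex.one_re, Complex.one_im]
            nlinarith
          have h5 : ‖(fourier 1 t : ℂ) - 1‖ ≤ η / 2 + 1 / η - 1 / η * (fourier 1 t : ℂ).re := by
            have h6 : 0 ≤ (‖(fourier 1 t : ℂ) - 1‖ - η) ^ 2 := sq_nonneg _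
            have h7 : η / 2 + 1 / η - 1 / η * (fourier 1 t : ℂ).re =
                (η ^ 2 + ‖(fourier 1 t : ℂ) - 1‖ ^ 2) / (2 * η) := by
              rw [hsq]; field_simp; ring
            rw [h7, le_div_iff₀ (by positivity)]
            nlinarith
          calc ‖(fourier 1 t : ℂ) - 1‖ * ‖u t‖ * Dg.pk a t
              ≤ (η / 2 + 1 / η - 1 / η * (fourier 1 t : ℂ).re) * ‖u‖ * Dg.pk a t := by
                apply mul_le_mul_of_nonneg_right _ hpk
                exact mul_le_mul h5 ht (norm_nonneg _) ((norm_nonneg _).trans h5)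
            _ = _ := by ring
    _ = ‖u‖ * (η / 2 + (1 - a.re) / η) := by
        rw [integral_const_mul, integral_sub ((integrable_pk ha).const_mul _)
          (hint.const_mul _), integral_const_mul, integral_const_mul, Dg.int_pk ha, hre]
        congr 1
        field_simp
        ring

end Pool.Agent.Helper824_tan
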