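import Pool.Agent.Helper824_tan.Bdry
import Pool.Agent.H720R2.HP.Final

set_option autoImplicit false

/-!
# Carleson's corona theorem on the disc
-/

open Filter Topology Set Metric

namespace Pool.Agent.Helper824_tan

open Pool.Agent.H720R2.HP
open Pool.Agent.H720R2.Cor (Ball IsAutomorphism)

/-- **Corona theorem** -/
theorem corona (N : ℕ) (f : Fin N → ℂ → ℂ) (hf : ∀ i, BA (f i)) {δ : ℝ} (hδ : 0 < δ)
    (hlow : ∀ z ∈ ball (0 : ℂ) 1, δ ≤ ∑ i, ‖f i z‖) :
    ∃ g : Fin N → ℂ → ℂ, (∀ i, BA (g i)) ∧ ∀ z ∈ ball (0 : ℂ) 1, ∑ i, f i z * g i z = 1 := by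
  choose C hC using fun i => (hf i).bdd
  set K : ℝ := 1 + ∑ i, |C i| with hK
  have hK1 : 1 ≤ K := by
    have : 0 ≤ ∑ i, |C i| := Finset.sum_nonneg fun _ _ => abs_nonneg _
    linarith
  have hK0 : 0 < K := by linarith
  have hKc : (K : ℂ) ≠ 0 := by exact_mod_cast hK0.ne'
  have hCK : ∀ i, ∀ z ∈ ball (0 : ℂ) 1, ‖f i z‖ ≤ K := by
    intro i z hz
    have h1 := hC i z hz
    have h2 : |C i| ≤ ∑ i, |C i| :=
      Finset.single_le_sum (f := fun i => |C i|) (fun _ _ => abs_nonneg _) (Finset.mem_univ i)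
    have h3 := le_abs_self (C i)
    linarith
  have hN : (0 : ℝ) < N + 1 := by positivity
  obtain ⟨C', hC0, hone⟩ := oneCoord N (δ := δ / K / (N + 1)) (by positivity)
  have hid : IsAutomorphism (id : (Fin (0 + 1) → ℂ) → (Fin (0 + 1) → ℂ)) :=
    ⟨differentiableOn_id, fun z hz => hz, id, differentiableOn_id, fun z hz => hz,
      fun _ _ => rfl, fun _ _ => rfl⟩
  obtain ⟨g, g₀, h1, -, h3, -, h5⟩ := hone 0 id hid (fun i x => f i x / K) (by
    intro i
    exact (hf i).diff.div_const _) (by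
    intro i x hx
    rw [norm_div, Complex.norm_real, Real.norm_of_nonneg hK0.le, div_le_one hK0]
    exact hCK i x hx) (fun _ => 0) (differentiableOn_const _) (fun z _ => by simp) (by
    intro z hz hall
    exfalso
    have h6 := hlow (z 0) (ball_zero hz)
    have h7 : ∑ i, ‖f i (z 0) / K‖ ≤ ∑ _i : Fin N, δ / K / (N + 1) :=
      Finset.sum_le_sum fun i _ => (hall i).le
    rw [Finset.sum_const, Finset.card_univ, Fintype.card_fin, nsmul_eq_mul, mul_div_assoc'] at h7
    have h8 : (N : ℝ) * (δ / K) / (N + 1) < δ / K := by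
      have : 0 < δ / K := by positivity
      rw [div_lt_iff₀ hN]
      nlinarith
    have h9 : ∑ i, ‖f i (z 0) / K‖ = (∑ i, ‖f i (z 0)‖) / K := by
      rw [Finset.sum_div]
      apply Finset.sum_congr rfl
      intro i _
      rw [norm_div, Complex.norm_real, Real.norm_of_nonneg hK0.le]
    rw [h9] at h7
    have h10 : δ / K ≤ (∑ i, ‖f i (z 0)‖) / K := div_le_div_of_nonneg_right h6 hK0.le
    linarith)
  have hm : ∀ w ∈ ball (0 : ℂ) 1, (fun _ : Fin (0 + 1) => w) ∈ Ball (0 + 1) := by
    intro w hw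
    change ∑ _i : Fin 1, ‖w‖ ^ 2 < 1
    rw [mem_ball_zero_iff] at hw
    rw [Finset.sum_const, Finset.card_univ, Fintype.card_fin, one_smul]
    have := norm_nonneg w
    nlinarith
  refine ⟨fun i w => g i (fun _ => w) / K, fun i => ⟨?_, C' / K, ?_⟩, ?_⟩
  · apply DifferentiableOn.div_const
    apply (h1 i).comp (t := Ball (0 + 1))
    · intro w hw
      apply DifferentiableAt.differentiableWithinAt
      rw [differentiableAt_pi]
      intro _
      exact differentiableAt_id
    · intro w hw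
      exact hm w hw
  · intro w hw
    rw [norm_div, Complex.norm_real, Real.norm_of_nonneg hK0.le]
    exact div_le_div_of_nonneg_right (h3 i _ (hm w hw)) hK0.le
  · intro w hw
    have h9 := h5 _ (hm w hw)
    simp only [id, zero_mul, add_zero] at h9
    rw [← h9]
    apply Finset.sum_congr rfl
    intro i _
    field_simp

end Pool.Agent.Helper824_tan
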