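import Mathlib

set_option autoImplicit false

/-!
# The algebra `H^∞ + C`, hull-kernel closed sets, `t`-analytic sets and Gleason parts: definitions
-/

open MeasureTheory AddCircle Filter Topology
open scoped ENNReal

namespace Pool.Agent.Helper824_tan

/-- Normalised arc length on the unit circle. The circle is realised as `ℝ/ℤ`, the class of `x`
being the point `e^{2πix}`. -/
noncomputable abbrev mu : Measure UnitAddCircle := haarAddCircle

/-- `L^∞` of the unit circle, with the essential supremum norm. -/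
abbrev Linf : Type := Lp ℂ ⊤ mu

lemma ae_norm_le (u : Linf) : ∀ᵐ t ∂mu, ‖u t‖ ≤ ‖u‖ := by
  have h := ae_le_eLpNormEssSup (f := (u : UnitAddCircle → ℂ)) (μ := mu)
  filter_upwards [h] with t ht
  rw [Lp.norm_def, eLpNorm_exponent_top]
  have hfin : eLpNormEssSup (u : UnitAddCircle → ℂ) mu ≠ ⊤ := by
    have := Lp.eLpNorm_ne_top u
    rwa [eLpNorm_exponent_top] at this
  have := ENNReal.toReal_mono hfin ht
  simpa using this

lemma norm_le_of_ae {u : Linf} {C : ℝ} (hC : 0 ≤ C) (h : ∀ᵐ t ∂mu, ‖u t‖ ≤ C) : ‖u‖ ≤ C := by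
  have := Lp.norm_le_of_ae_bound (f := u) (C := C) (p := ⊤) hC h
  simpa using this

lemma memLp_mul (u v : Linf) : MemLp (fun t => u t * v t) ⊤ mu := by
  refine memLp_top_of_bound ((Lp.aestronglyMeasurable u).mul (Lp.aestronglyMeasurable v))
    (‖u‖ * ‖v‖) ?_
  filter_upwards [ae_norm_le u, ae_norm_le v] with t h1 h2
  rw [norm_mul]
  exact mul_le_mul h1 h2 (norm_nonneg _) (norm_nonneg _)

/-- The product of `L^∞` is the pointwise product (almost everywhere). -/
noncomputable instance instMulLinf : Mul Linf := ⟨fun u v => (memLp_mul u v).toLp _⟩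

/-- The unit of `L^∞` is the constant function `1`. -/
noncomputable instance instOneLinf : One Linf :=
  ⟨MemLp.toLp (fun _ : UnitAddCircle => (1 : ℂ)) (memLp_const 1)⟩

lemma coeFn_mul (u v : Linf) : ⇑(u * v) =ᵐ[mu] fun t => u t * v t :=
  MemLp.coeFn_toLp (memLp_mul u v)

lemma coeFn_one : ⇑(1 : Linf) =ᵐ[mu] fun _ => (1 : ℂ) := MemLp.coeFn_toLp _

lemma coeFn_add (u v : Linf) : ⇑(u + v) =ᵐ[mu] fun t => u t + v t := Lp.coeFn_add u v

lemma coeFn_sub (u v : Linf) : ⇑(u - v) =ᵐ[mu] fun t => u t - v t := Lp.coeFn_sub u v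

lemma coeFn_zero : ⇑(0 : Linf) =ᵐ[mu] fun _ => (0 : ℂ) := Lp.coeFn_zero _ _ _

lemma coeFn_smul (c : ℂ) (u : Linf) : ⇑(c • u) =ᵐ[mu] fun t => c * u t := Lp.coeFn_smul c u

lemma Linf_left_distrib (a b c : Linf) : a * (b + c) = a * b + a * c := by
  apply Lp.ext
  filter_upwards [coeFn_mul a (b + c), coeFn_add b c, coeFn_add (a * b) (a * c),
    coeFn_mul a b, coeFn_mul a c] with t h1 h2 h3 h4 h5
  rw [h1, h2, h3, h4, h5, mul_add]

lemma Linf_right_distrib (a b c : Linf) : (a + b) * c = a * c + b * c := by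
  apply Lp.ext
  filter_upwards [coeFn_mul (a + b) c, coeFn_add a b, coeFn_add (a * c) (b * c),
    coeFn_mul a c, coeFn_mul b c] with t h1 h2 h3 h4 h5
  rw [h1, h2, h3, h4, h5, add_mul]

lemma Linf_zero_mul (a : Linf) : 0 * a = 0 := by
  apply Lp.ext
  filter_upwards [coeFn_mul 0 a, coeFn_zero] with t h1 h2
  rw [h1, h2, zero_mul]

lemma Linf_mul_zero (a : Linf) : a * 0 = 0 := by
  apply Lp.ext
  filter_upwards [coeFn_mul a 0, coeFn_zero] with t h1 h2
  rw [h1, h2, mul_zero]

lemma Linf_mul_assoc (a b c : Linf) : a * b * c = a * (b * c) := by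
  apply Lp.ext
  filter_upwards [coeFn_mul (a * b) c, coeFn_mul a b, coeFn_mul a (b * c), coeFn_mul b c]
    with t h1 h2 h3 h4
  rw [h1, h2, h3, h4, mul_assoc]

lemma Linf_one_mul (a : Linf) : 1 * a = a := by
  apply Lp.ext
  filter_upwards [coeFn_mul 1 a, coeFn_one] with t h1 h2
  rw [h1, h2, one_mul]

lemma Linf_mul_one (a : Linf) : a * 1 = a := by
  apply Lp.ext
  filter_upwards [coeFn_mul a 1, coeFn_one] with t h1 h2
  rw [h1, h2, mul_one]

lemma Linf_mul_comm (a b : Linf) : a * b = b * a := by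
  apply Lp.ext
  filter_upwards [coeFn_mul a b, coeFn_mul b a] with t h1 h2
  rw [h1, h2, mul_comm]

lemma Linf_norm_mul_le (a b : Linf) : ‖a * b‖ ≤ ‖a‖ * ‖b‖ := by
  apply norm_le_of_ae (mul_nonneg (norm_nonneg _) (norm_nonneg _))
  filter_upwards [coeFn_mul a b, ae_norm_le a, ae_norm_le b] with t h1 h2 h3
  rw [h1, norm_mul]
  exact mul_le_mul h2 h3 (norm_nonneg _) (norm_nonneg _)

lemma Linf_smul_mul (c : ℂ) (a b : Linf) : c • a * b = c • (a * b) := by
  apply Lp.ext
  filter_upwards [coeFn_mul (c • a) b, coeFn_smul c a, coeFn_smul c (a * b), coeFn_mul a b]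
    with t h1 h2 h3 h4
  rw [h1, h2, h3, h4, mul_assoc]

lemma Linf_mul_smul (c : ℂ) (a b : Linf) : a * c • b = c • (a * b) := by
  apply Lp.ext
  filter_upwards [coeFn_mul a (c • b), coeFn_smul c b, coeFn_smul c (a * b), coeFn_mul a b]
    with t h1 h2 h3 h4
  rw [h1, h2, h3, h4, mul_left_comm]

/-- `L^∞` with the pointwise operations and the essential supremum norm is a commutative
Banach algebra. -/
noncomputable instance instNormedCommRingLinf : NormedCommRing Linf :=
  { (inferInstance : NormedAddCommGroup Linf), instMulLinf, instOneLinf with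
    left_distrib := Linf_left_distrib
    right_distrib := Linf_right_distrib
    zero_mul := Linf_zero_mul
    mul_zero := Linf_mul_zero
    mul_assoc := Linf_mul_assoc
    one_mul := Linf_one_mul
    mul_one := Linf_mul_one
    mul_comm := Linf_mul_comm
    norm_mul_le := Linf_norm_mul_le }

noncomputable instance instAlgebraLinf : Algebra ℂ Linf :=
  Algebra.ofModule Linf_smul_mul Linf_mul_smul

lemma Linf_norm_smul_le (c : ℂ) (a : Linf) : ‖c • a‖ ≤ ‖c‖ * ‖a‖ := norm_smul_le c a

noncomputable instance instNormedAlgebraLinf : NormedAlgebra ℂ Linf :=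
  { instAlgebraLinf with norm_smul_le := Linf_norm_smul_le }

/-- `u` is the boundary function of the bounded analytic function `F` on the unit disc:
`F (r ζ) → u(ζ)` as `r → 1-` for almost every point `ζ` of the circle. -/
def IsBoundaryFunction (F : ℂ → ℂ) (u : Linf) : Prop :=
  DifferentiableOn ℂ F (Metric.ball 0 1) ∧
  (∃ C : ℝ, ∀ z ∈ Metric.ball (0 : ℂ) 1, ‖F z‖ ≤ C) ∧
  ∀ᵐ t ∂mu, Tendsto (fun r : ℝ => F (r * fourier 1 t)) (𝓝[<] 1) (𝓝 (u t))

/-- `H^∞`, identified with the set of its boundary functions in `L^∞`. -/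
def Hinf : Set Linf := {u | ∃ F : ℂ → ℂ, IsBoundaryFunction F u}

/-- `C`, the continuous functions on the circle, as a subset of `L^∞`. -/
def Cont : Set Linf := {u | ∃ c : C(UnitAddCircle, ℂ), ⇑u =ᵐ[mu] c}

/-- `H^∞ + C`: the closed subalgebra of `L^∞` generated by `H^∞` and `C`. -/
noncomputable def HinfC : Subalgebra ℂ Linf := (Algebra.adjoin ℂ (Hinf ∪ Cont)).topologicalClosure

/-- The ring structure and the norm of `H^∞ + C` are those of `L^∞`. -/
noncomputable instance instNormedCommRingHinfC : NormedCommRing HinfC := inferInstance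

/-- The algebra structure of `H^∞ + C` is that of `L^∞`. -/
noncomputable instance instNormedAlgebraHinfC : NormedAlgebra ℂ HinfC := inferInstance

section General

/-- `M(A)`, the character space of `A` (Mathlib's `WeakDual.characterSpace`). -/
abbrev M (A : Type*) [NormedCommRing A] [NormedAlgebra ℂ A] : Type _ :=
  WeakDual.characterSpace ℂ A

variable {A : Type*} [NormedCommRing A] [NormedAlgebra ℂ A]

/-- The Gelfand topology of `M(A)` (Mathlib's topology of `WeakDual.characterSpace`). -/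
noncomputable instance instTopologicalSpaceM : TopologicalSpace (M A) := inferInstance

/-- Characters are functions on `A` (Mathlib's coercion of `WeakDual.characterSpace`). -/
noncomputable instance instFunLikeM : FunLike (M A) A ℂ := inferInstance

/-- `I_A(E)`, the set of all `f ∈ A` that vanish on `E`. -/
def kernel (E : Set (M A)) : Set A := {f | ∀ x ∈ E, x f = 0}

/-- `Z_A(J)`, the set of the common zeros of the members of `J`. -/
def hull (J : Set A) : Set (M A) := {x | ∀ f ∈ J, x f = 0}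

/-- `E` is hull-kernel closed. -/
def HullKernelClosed (E : Set (M A)) : Prop := E = hull (kernel E)

/-- `E` is `t`-analytic for `A`: a member of `A` that vanishes on a nonempty relatively open subset
`U ∩ E` of `E` vanishes on `E`. -/
def TAnalytic (E : Set (M A)) : Prop :=
  ∀ (f : A) (U : Set (M A)), IsOpen U → (U ∩ E).Nonempty → (∀ x ∈ U ∩ E, x f = 0) →
    ∀ x ∈ E, x f = 0

/-- The pseudohyperbolic distance `ρ(x, m) = sup {|f(x)| : ‖f‖ ≤ 1, f(m) = 0}`. -/
noncomputable def rho (x m : M A) : ℝ := sSup {r : ℝ | ∃ f : A, ‖f‖ ≤ 1 ∧ m f = 0 ∧ r = ‖x f‖}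

/-- The Gleason part `P(m) = {x : ρ(x, m) < 1}`. -/
def gleasonPart (m : M A) : Set (M A) := {x | rho x m < 1}

end General

end Pool.Agent.Helper824_tan
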