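import Mathlib

set_option autoImplicit false

/-!
# A topologically transitive shift invariant closed set of ultrafilters on `ℤ`

It meets uncountably many pairwise almost disjoint clopen sets, so that it is not the closure of
an orbit.
-/

namespace Pool.Agent.Helper824_tan.Dyn

open Filter Set Topology

/-- the shift by `n` on ultrafilters on `ℤ` -/
def sh (n : ℤ) (p : Ultrafilter ℤ) : Ultrafilter ℤ := p.map (fun a => a + n)

lemma mem_sh {n : ℤ} {p : Ultrafilter ℤ} {S : Set ℤ} : S ∈ sh n p ↔ {a | a + n ∈ S} ∈ p :=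
  Iff.rfl

lemma sh_sh (m n : ℤ) (p : Ultrafilter ℤ) : sh m (sh n p) = sh (n + m) p := by
  apply Ultrafilter.ext
  intro S
  simp only [mem_sh, mem_ofPred_eq, add_assoc]

lemma sh_zero (p : Ultrafilter ℤ) : sh 0 p = p := by
  apply Ultrafilter.ext
  intro S
  simp only [mem_sh, add_zero, ofPred_mem_eq]

lemma continuous_sh (n : ℤ) : Continuous (sh n) := by
  refine continuous_generateFrom_iff.2 ?_
  rintro _ ⟨S, rfl⟩
  exact ultrafilter_isOpen_basic {a | a + n ∈ S}

/-- a sequence of natural numbers in which every finite pattern occurs -/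
def chi (a : ℤ) : ℕ :=
  ((Encodable.decode (α := List ℕ) (Nat.sqrt a.toNat)).getD []).getD
    (a.toNat - Nat.sqrt a.toNat ^ 2) 0

lemma chi_univ (M : ℕ) (u : ℤ → ℕ) (N : ℕ) :
    ∃ a : ℤ, (N : ℤ) ≤ a ∧ ∀ i : ℤ, |i| ≤ M → chi (a + i) = u i := by
  set L : ℕ := 2 * M + 1 + N with hL
  set l : List ℕ := List.ofFn (fun i : Fin L => u ((i : ℤ) - M)) with hl
  have hlen : l.length = L := by rw [hl, List.length_ofFn]
  set k : ℕ := Encodable.encode l with hk
  have hLk : L ≤ k := by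
    have := Encodable.length_le_encode l
    omega
  refine ⟨(k : ℤ) ^ 2 + M, ?_, ?_⟩
  · have h1 : (N : ℤ) ≤ k := by exact_mod_cast (by omega : N ≤ k)
    have h2 : (0 : ℤ) ≤ (k : ℤ) := by positivity
    have h3 : (k : ℤ) ≤ (k : ℤ) ^ 2 := by
      have : (1 : ℤ) ≤ k := by exact_mod_cast (by omega : 1 ≤ k)
      nlinarith
    have h4 : (0 : ℤ) ≤ M := by positivity
    linarith
  · intro i hi
    rw [abs_le] at hi
    obtain ⟨j, hj⟩ : ∃ j : ℕ, (j : ℤ) = M + i := ⟨(M + i).toNat, by omega⟩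
    have hj2 : j ≤ 2 * M := by omega
    have e : ((k : ℤ) ^ 2 + M + i) = ((k ^ 2 + j : ℕ) : ℤ) := by
      push_cast
      rw [hj]; ring
    have hs : Nat.sqrt (k ^ 2 + j) = k := Nat.sqrt_add_eq' k (by omega)
    rw [e]
    unfold chi
    rw [Int.toNat_natCast, hs, Nat.add_sub_cancel_left, hk, Encodable.encodek, Option.getD_some]
    have hjL : j < l.length := by omega
    rw [List.getD_eq_getElem _ _ hjL]
    simp only [hl, List.getElem_ofFn]
    congr 1
    omega

/-- almost disjoint infinite sets of natural numbers -/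
def DD (d : ℕ → Bool) : Set ℕ :=
  Set.range (fun m : ℕ => Encodable.encode (List.ofFn (fun i : Fin m => d i)))

lemma DD_large (d : ℕ → Bool) (N : ℕ) : ∃ x ∈ DD d, N ≤ x := by
  refine ⟨_, ⟨N, rfl⟩, ?_⟩
  have := Encodable.length_le_encode (List.ofFn (fun i : Fin N => d i))
  rwa [List.length_ofFn] at this

lemma DD_ad {d d' : ℕ → Bool} (h : d ≠ d') : ∃ N : ℕ, ∀ x ∈ DD d, x ∈ DD d' → x < N := by
  obtain ⟨i, hi⟩ := Function.ne_iff.1 h
  set f : ℕ → ℕ := fun m : ℕ => Encodable.encode (List.ofFn (fun i : Fin m => d i)) with hf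
  refine ⟨(∑ m ∈ Finset.range (i + 1), f m) + 1, ?_⟩
  rintro x ⟨m, rfl⟩ ⟨m', hm'⟩
  have h1 := Encodable.encode_injective hm'
  have h2 : m' = m := by
    have := congrArg List.length h1
    simpa using this
  subst h2
  have h3 : m' ≤ i := by
    by_contra hlt
    push Not at hlt
    have h4 := List.ofFn_injective h1
    have h5 := congrFun h4 ⟨i, hlt⟩
    exact hi h5.symm
  have h6 : f m' ≤ ∑ m ∈ Finset.range (i + 1), f m :=
    Finset.single_le_sum (f := f) (fun _ _ => Nat.zero_le _) (Finset.mem_range.2 (by omega))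
  exact Nat.lt_succ_of_le h6

/-- the positions where a finite pattern occurs -/
def pat (J : Finset ℤ) (π : ℤ → ℕ → Bool) : Set ℤ := {a | ∀ j ∈ J, chi (a + j) ∈ DD (π j)}

/-- the largest system -/
def K0 : Set (Ultrafilter ℤ) :=
  {p | (∀ N : ℤ, {a : ℤ | N ≤ a} ∈ p) ∧ ∀ (j : ℤ) (N : ℕ), {a : ℤ | N ≤ chi (a + j)} ∈ p}

lemma K0_closed : IsClosed K0 := by
  have : K0 = (⋂ N : ℤ, {p : Ultrafilter ℤ | {a : ℤ | N ≤ a} ∈ p}) ∩
      ⋂ (j : ℤ) (N : ℕ), {p : Ultrafilter ℤ | {a : ℤ | N ≤ chi (a + j)} ∈ p} := by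
    ext p
    simp only [K0, mem_ofPred_eq, mem_inter_iff, mem_iInter]
  rw [this]
  exact (isClosed_iInter fun N => ultrafilter_isClosed_basic _).inter
    (isClosed_iInter fun j => isClosed_iInter fun N => ultrafilter_isClosed_basic _)

lemma K0_inv {p : Ultrafilter ℤ} (hp : p ∈ K0) (n : ℤ) : sh n p ∈ K0 := by
  refine ⟨fun N => ?_, fun j N => ?_⟩
  · rw [mem_sh]
    filter_upwards [hp.1 (N - n)] with a ha
    have h1 : N - n ≤ a := ha
    have h2 : N ≤ a + n := by linarith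
    exact h2
  · rw [mem_sh]
    filter_upwards [hp.2 (n + j) N] with a ha
    have h1 : N ≤ chi (a + (n + j)) := ha
    rw [← add_assoc] at h1
    exact h1

/-- the systems in which all patterns occur -/
structure Good (K : Set (Ultrafilter ℤ)) : Prop where
  closed : IsClosed K
  sub : K ⊆ K0
  inv : ∀ p ∈ K, ∀ n, sh n p ∈ K
  meets : ∀ J π, ∃ p ∈ K, pat J π ∈ p

lemma good_K0 : Good K0 := by
  refine ⟨K0_closed, le_rfl, fun p hp n => K0_inv hp n, fun J π => ?_⟩
  set S : ℕ → Set ℤ := fun N => {a | (N : ℤ) ≤ a ∧ a ∈ pat J π ∧ ∀ i : ℤ, |i| ≤ N →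
    N ≤ chi (a + i)} with hS
  have hanti : Antitone S := by
    intro N N' hNN a ha
    refine ⟨le_trans (by exact_mod_cast hNN) ha.1, ha.2.1, fun i hi => ?_⟩
    exact hNN.trans (ha.2.2 i (hi.trans (by exact_mod_cast hNN)))
  have hne : ∀ N, (S N).Nonempty := by
    intro N
    obtain ⟨M, hM⟩ : ∃ M : ℕ, ∀ j ∈ J, |j| ≤ (M : ℤ) := by
      refine ⟨∑ j ∈ J, |j|.toNat, fun j hj => ?_⟩
      have h1 : |j|.toNat ≤ ∑ j ∈ J, |j|.toNat :=
        Finset.single_le_sum (f := fun j : ℤ => |j|.toNat) (fun _ _ => Nat.zero_le _) hj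
      have h2 : (|j|.toNat : ℤ) = |j| := Int.toNat_of_nonneg (abs_nonneg j)
      rw [← h2]
      exact_mod_cast h1
    choose u hu1 hu2 using fun j : ℤ => DD_large (π j) N
    obtain ⟨a, ha1, ha2⟩ := chi_univ (max M N) u N
    refine ⟨a, ha1, fun j hj => ?_, fun i hi => ?_⟩
    · rw [ha2 j ((hM j hj).trans (by exact_mod_cast le_max_left _ _))]
      exact hu1 j
    · rw [ha2 i (hi.trans (by exact_mod_cast le_max_right _ _))]
      exact hu2 i
  have hbot : (⨅ N, 𝓟 (S N)).NeBot := by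
    refine iInf_neBot_of_directed ?_ fun N => ?_
    · intro N N'
      refine ⟨max N N', ?_, ?_⟩
      · exact principal_mono.2 (hanti (le_max_left _ _))
      · exact principal_mono.2 (hanti (le_max_right _ _))
    · exact principal_neBot_iff.2 (hne N)
  obtain ⟨p, hp⟩ := Ultrafilter.exists_le (⨅ N, 𝓟 (S N))
  have hp2 : ∀ N, S N ∈ p := fun N => hp (mem_iInf_of_mem N (mem_principal_self _))
  refine ⟨p, ⟨fun N => ?_, fun j N => ?_⟩, ?_⟩
  · filter_upwards [hp2 N.toNat] with a ha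
    have h1 := ha.1
    have h2 : N ≤ a := by omega
    exact h2
  · filter_upwards [hp2 (max N j.natAbs)] with a ha
    have h1 := ha.2.2 j (by
      rw [← Int.natCast_natAbs]
      exact_mod_cast le_max_right _ _)
    exact (le_max_left _ _).trans h1
  · filter_upwards [hp2 0] with a ha
    exact ha.2.1

lemma exists_minimal : ∃ K, Good K ∧ ∀ K', Good K' → K' ⊆ K → K' = K := by
  obtain ⟨K, hK⟩ : ∃ K, Minimal (· ∈ {K | Good K}) K := by
    obtain ⟨m, -, hm⟩ := zorn_superset_nonempty {K | Good K} (by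
      intro c hc hchain hcne
      refine ⟨⋂₀ c, ?_, fun s hs => sInter_subset_of_mem hs⟩
      obtain ⟨K1, hK1⟩ := hcne
      refine ⟨isClosed_sInter fun K hK => (hc hK).closed,
        (sInter_subset_of_mem hK1).trans (hc hK1).sub, ?_, ?_⟩
      · intro p hp n
        rw [mem_sInter] at hp ⊢
        exact fun K hK => (hc hK).inv p (hp K hK) n
      · intro J π
        have : Nonempty c := ⟨⟨K1, hK1⟩⟩
        have h1 : (⋂ K : c, ((K : Set (Ultrafilter ℤ)) ∩ {p | pat J π ∈ p})).Nonempty := by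
          apply IsCompact.nonempty_iInter_of_directed_nonempty_isCompact_isClosed
          · intro K K'
            rcases hchain.total K.2 K'.2 with h | h
            · exact ⟨K, le_rfl, inter_subset_inter_left _ h⟩
            · exact ⟨K', inter_subset_inter_left _ h, le_rfl⟩
          · intro K
            obtain ⟨p, hp1, hp2⟩ := (hc K.2).meets J π
            exact ⟨p, hp1, hp2⟩
          · intro K
            exact ((hc K.2).closed.inter (ultrafilter_isClosed_basic _)).isCompact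
          · intro K
            exact (hc K.2).closed.inter (ultrafilter_isClosed_basic _)
        obtain ⟨p, hp⟩ := h1
        rw [mem_iInter] at hp
        refine ⟨p, ?_, (hp ⟨K1, hK1⟩).2⟩
        rw [mem_sInter]
        exact fun K hK => (hp ⟨K, hK⟩).1) K0 good_K0
    exact ⟨m, hm⟩
  refine ⟨K, hK.1, fun K' h1 h2 => ?_⟩
  exact Set.Subset.antisymm h2 (hK.2 h1 h2)

lemma closure_inv {W : Set (Ultrafilter ℤ)} (h : ∀ p ∈ W, ∀ n, sh n p ∈ W) :
    ∀ p ∈ closure W, ∀ n, sh n p ∈ closure W := by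
  intro p hp n
  exact map_mem_closure (continuous_sh n) hp (fun q hq => h q hq n)

/-- joining two patterns -/
lemma join (J J' : Finset ℤ) (π π' : ℤ → ℕ → Bool) : ∃ (J'' : Finset ℤ) (π'' : ℤ → ℕ → Bool)
    (m : ℤ), pat J'' π'' ⊆ pat J π ∧ ∀ a ∈ pat J'' π'', a + m ∈ pat J' π' := by
  classical
  obtain ⟨M, hM⟩ : ∃ M : ℤ, ∀ j ∈ J, j ≤ M := by
    obtain ⟨M, hM⟩ := J.bddAbove
    exact ⟨M, fun j hj => hM hj⟩
  obtain ⟨M', hM'⟩ : ∃ M : ℤ, ∀ j ∈ J', M ≤ j := by
    obtain ⟨M, hM⟩ := J'.bddBelow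
    exact ⟨M, fun j hj => hM hj⟩
  set m : ℤ := M - M' + 1 with hm
  refine ⟨J ∪ J'.image (fun j => m + j), fun i => if i ≤ M then π i else π' (i - m), m, ?_, ?_⟩
  · intro a ha j hj
    have h1 := ha j (Finset.mem_union_left _ hj)
    simp only [if_pos (hM j hj)] at h1
    exact h1
  · intro a ha j hj
    have h1 := ha (m + j) (Finset.mem_union_right _ (Finset.mem_image_of_mem _ hj))
    have h2 : ¬ (m + j ≤ M) := by
      have := hM' j hj
      omega
    simp only [if_neg h2] at h1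
    have h3 : m + j - m = j := by ring
    rw [h3] at h1
    rw [add_assoc]
    exact h1

theorem dyn : ∃ K : Set (Ultrafilter ℤ), IsClosed K ∧
    (∀ p ∈ K, ∀ N : ℤ, {a : ℤ | N ≤ a} ∈ p) ∧ (∀ p ∈ K, ∀ n, sh n p ∈ K) ∧
    (∀ V O : Set (Ultrafilter ℤ), IsOpen V → IsOpen O → (V ∩ K).Nonempty → (O ∩ K).Nonempty →
      ∃ p ∈ O ∩ K, ∃ n, sh n p ∈ V) ∧
    ∃ A : (ℕ → Bool) → Set ℤ, (∀ d, ∃ p ∈ K, A d ∈ p) ∧
      ∀ d d', d ≠ d' → ∀ p ∈ K, A d ∈ p → A d' ∉ p := by
  obtain ⟨K, hK, hmin⟩ := exists_minimal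
  refine ⟨K, hK.closed, fun p hp => (hK.sub hp).1, hK.inv, ?_, ?_⟩
  · intro V O hV hO hVK hOK
    set W : Set (Ultrafilter ℤ) := {p | p ∈ K ∧ ∃ n, sh n p ∈ V} with hW
    have hWinv : ∀ p ∈ W, ∀ n, sh n p ∈ W := by
      rintro p ⟨hp, k, hk⟩ n
      refine ⟨hK.inv p hp n, k - n, ?_⟩
      rw [sh_sh]
      have : n + (k - n) = k := by ring
      rwa [this]
    have hK' : ¬ Good (K \ W) := by
      intro hg
      have h1 := hmin _ hg sdiff_subset
      obtain ⟨p, hpV, hpK⟩ := hVK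
      have h2 : p ∈ K \ W := by rw [h1]; exact hpK
      exact h2.2 ⟨hpK, 0, by rwa [sh_zero]⟩
    obtain ⟨J, π, hJ⟩ : ∃ J π, ∀ p ∈ K, pat J π ∈ p → p ∈ W := by
      by_contra hcon
      push Not at hcon
      apply hK'
      refine ⟨?_, sdiff_subset.trans hK.sub, ?_, ?_⟩
      · have h1 : K \ W = K ∩ (⋃ n, sh n ⁻¹' V)ᶜ := by
          ext p
          simp only [hW, Set.mem_sdiff, mem_ofPred_eq, mem_inter_iff, mem_compl_iff, mem_iUnion,
            mem_preimage, not_and]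
          constructor
          · rintro ⟨h1, h2⟩; exact ⟨h1, h2 h1⟩
          · rintro ⟨h1, h2⟩; exact ⟨h1, fun _ => h2⟩
        rw [h1]
        exact hK.closed.inter (isOpen_iUnion fun n => hV.preimage (continuous_sh n)).isClosed_compl
      · rintro p ⟨hp1, hp2⟩ n
        refine ⟨hK.inv p hp1 n, fun h => hp2 ?_⟩
        have := hWinv _ h (-n)
        rwa [sh_sh, add_neg_cancel, sh_zero] at this
      · intro J π
        obtain ⟨p, hp1, hp2, hp3⟩ := hcon J π
        exact ⟨p, ⟨hp1, hp3⟩, hp2⟩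
    have hgood : Good (closure W) := by
      have hsub : closure W ⊆ K := closure_minimal (fun p hp => hp.1) hK.closed
      refine ⟨isClosed_closure, hsub.trans hK.sub, closure_inv hWinv, ?_⟩
      intro J' π'
      obtain ⟨J'', π'', m, h1, h2⟩ := join J J' π π'
      obtain ⟨p, hp1, hp2⟩ := hK.meets J'' π''
      refine ⟨sh m p, subset_closure (hWinv p (hJ p hp1 (mem_of_superset hp2 h1)) m), ?_⟩
      rw [mem_sh]
      exact mem_of_superset hp2 h2
    have heq := hmin _ hgood (closure_minimal (fun p hp => hp.1) hK.closed)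
    obtain ⟨q, hqO, hqK⟩ := hOK
    rw [← heq] at hqK
    obtain ⟨p, hpO, hpW⟩ := mem_closure_iff.1 hqK O hO hqO
    exact ⟨p, ⟨hpO, hpW.1⟩, hpW.2⟩
  · refine ⟨fun d => {a | chi a ∈ DD d}, fun d => ?_, fun d d' hdd p hp h1 h2 => ?_⟩
    · obtain ⟨p, hp1, hp2⟩ := hK.meets {0} (fun _ => d)
      refine ⟨p, hp1, mem_of_superset hp2 fun a ha => ?_⟩
      have := ha 0 (Finset.mem_singleton_self 0)
      simpa using this
    · obtain ⟨N, hN⟩ := DD_ad hdd
      have h3 := (hK.sub hp).2 0 N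
      have h4 : ({a | chi a ∈ DD d} ∩ {a | chi a ∈ DD d'} ∩ {a : ℤ | N ≤ chi (a + 0)}) ∈ p :=
        inter_mem (inter_mem h1 h2) h3
      obtain ⟨a, ⟨ha1, ha2⟩, ha3⟩ := p.nonempty_of_mem h4
      have h5 := hN _ ha1 ha2
      simp only [add_zero, mem_ofPred_eq] at ha3
      omega

end Pool.Agent.Helper824_tan.Dyn
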