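import Pool.Agent.Helper824_tan.Tan
import Pool.Agent.Helper824_tan.Cor

set_option autoImplicit false

/-!
# The closure of the union of the parts through an invariant closed set is hull-kernel closed
-/

open Filter Topology Set Metric

namespace Pool.Agent.Helper824_tan

open Dyn

/-- points outside a closure are separated by finitely many functions -/
lemma basic_nhd {y : M HinfC} {S : Set (M HinfC)} (hy : y ∉ closure S) :
    ∃ (s : Finset HinfC) (ε : ℝ), 0 < ε ∧ ∀ x ∈ S, ∃ f ∈ s, ε ≤ ‖x f - y f‖ := by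
  classical
  have h1 : (closure S)ᶜ ∈ 𝓝 y := isClosed_closure.isOpen_compl.mem_nhds hy
  have hind : Topology.IsInducing (fun (x : M HinfC) (f : HinfC) => x f) := by
    have h2 : Topology.IsInducing (fun (x : WeakDual ℂ HinfC) (f : HinfC) => x f) :=
      ⟨rfl⟩
    exact h2.comp Topology.IsInducing.subtypeVal
  rw [hind.nhds_eq_comap, mem_comap] at h1
  obtain ⟨t, ht, hts⟩ := h1
  rw [nhds_pi, Filter.mem_pi] at ht
  obtain ⟨I, hI, t', ht', hsub⟩ := ht
  have h3 : ∀ f : HinfC, ∃ ε : ℝ, 0 < ε ∧ ball (y f) ε ⊆ t' f := fun f =>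
    Metric.mem_nhds_iff.1 (ht' f)
  choose ε hε hεt using h3
  by_cases hne : hI.toFinset.Nonempty
  · obtain ⟨f₀, hf₀, hmin⟩ := hI.toFinset.exists_min_image ε hne
    refine ⟨hI.toFinset, ε f₀, hε f₀, fun x hx => ?_⟩
    by_contra hcon
    push Not at hcon
    have h4 : x ∈ (closure S)ᶜ := by
      apply hts
      apply hsub
      intro f hf
      apply hεt f
      rw [mem_ball, dist_eq_norm]
      exact (hcon f (hI.mem_toFinset.2 hf)).trans_le (hmin f (hI.mem_toFinset.2 hf))
    exact h4 (subset_closure hx)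
  · refine ⟨∅, 1, one_pos, fun x hx => ?_⟩
    exfalso
    have h4 : x ∈ (closure S)ᶜ := by
      apply hts
      apply hsub
      intro f hf
      exact absurd ⟨f, hI.mem_toFinset.2 hf⟩ hne
    exact h4 (subset_closure hx)

lemma exists_scale {w : ℂ} (hw : w ∈ RH) : ∃ (m : ℤ) (v : ℂ), v ∈ RH ∧ 1 ≤ ‖v‖ ∧ ‖v‖ ≤ 2 ∧
    w = (q m : ℂ) * v := by
  have hre : 0 < w.re := hw
  have hpos : 0 < ‖w‖ := hre.trans_le (Complex.re_le_norm w)
  obtain ⟨m, hm1, hm2⟩ := exists_mem_Ico_zpow hpos (one_lt_two (α := ℝ))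
  have hq : 0 < q m := q_pos m
  have hqc : (q m : ℂ) ≠ 0 := by exact_mod_cast hq.ne'
  have hqi : (q m : ℂ) * (q (-m) : ℂ) = 1 := by
    rw [← Complex.ofReal_mul, ← q_add, add_neg_cancel, q_zero, Complex.ofReal_one]
  have hqi' : q m * q (-m) = 1 := by rw [← q_add, add_neg_cancel, q_zero]
  have hn : ‖(q (-m) : ℂ) * w‖ = q (-m) * ‖w‖ := by
    rw [norm_mul, Complex.norm_real, Real.norm_of_nonneg (q_pos _).le]
  refine ⟨m, (q (-m) : ℂ) * w, q_mul_mem hw _, ?_, ?_, ?_⟩
  · rw [hn]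
    have h1 : q m ≤ ‖w‖ := hm1
    have h2 := q_pos (-m)
    nlinarith
  · rw [hn]
    have h1 : ‖w‖ < q (m + 1) := hm2
    have h3 : q (m + 1) = 2 * q m := by
      rw [q_add]; unfold q; rw [zpow_one]; ring
    have h2 := q_pos (-m)
    rw [h3] at h1
    nlinarith
  · rw [← mul_assoc, hqi, one_mul]

lemma bf_zero_lt {w : ℂ} (hw : w ∈ RH) : ‖bf 0 w‖ < 1 := by
  have h1 : 0 < sn 0 w := by
    rw [sn_eq hw]
    have h0 : ((q 0 : ℝ) : ℂ) + w ≠ 0 := add_ne hw (q_pos 0).le
    have h2 : 0 < ‖((q 0 : ℝ) : ℂ) + w‖ := norm_pos_iff.2 h0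
    have hre : 0 < w.re := hw
    have := q_pos 0
    positivity
  unfold sn at h1
  have h2 := norm_nonneg (bf 0 w)
  nlinarith

/-- transport of functions on the half plane to the disc -/
lemma BA_psi {g : ℂ → ℂ} (hg : DifferentiableOn ℂ g RH) {C : ℝ} (hC : ∀ w ∈ RH, ‖g w‖ ≤ C) :
    BA (fun z => g (psi z)) := by
  refine ⟨?_, C, fun z hz => hC _ (psi_mem (by simpa using hz))⟩
  exact hg.comp psi_diff (fun z hz => psi_mem (by simpa using hz))

lemma IsBoundaryFunction.sum {n : ℕ} {F : Fin n → ℂ → ℂ} {u : Fin n → Linf}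
    (h : ∀ i, IsBoundaryFunction (F i) (u i)) :
    IsBoundaryFunction (fun z => ∑ i, F i z) (∑ i, u i) := by
  induction n with
  | zero =>
    have := IsBoundaryFunction.const 0
    rw [map_zero] at this
    simpa using this
  | succ n ih =>
    have h1 := (h 0).add (ih (fun i => h i.succ))
    have e1 : ∑ i, u i = u 0 + ∑ i : Fin n, u i.succ := Fin.sum_univ_succ _
    have e2 : (fun z => ∑ i, F i z) = fun z => F 0 z + ∑ i : Fin n, F i.succ z := by
      funext z; exact Fin.sum_univ_succ _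
    rw [e1, e2]
    exact h1

/-- the corona theorem for characters of `H^∞ + C`: characters that vanish at `h i` do not vanish at
functions bounded away from zero on the set where all `F i` are small -/
theorem corona_char (y : M HinfC) {k : ℕ} (F : Fin k → ℂ → ℂ) (h : Fin k → HinfC)
    (hF : ∀ i, IsBoundaryFunction (F i) (h i)) (hy : ∀ i, y (h i) = 0) {G : ℂ → ℂ} {g : HinfC}
    (hG : IsBoundaryFunction G g) {δ : ℝ} (hδ : 0 < δ)
    (hlow : ∀ z ∈ ball (0 : ℂ) 1, (∀ i, ‖F i z‖ < δ) → δ ≤ ‖G z‖) : y g ≠ 0 := by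
  set f : Fin (k + 1) → ℂ → ℂ := Fin.cons G F with hf
  set u : Fin (k + 1) → HinfC := Fin.cons g h with hu
  have hfu : ∀ i, IsBoundaryFunction (f i) (u i) := by
    intro i
    refine Fin.cases ?_ (fun i => ?_) i
    · simpa [hf, hu] using hG
    · simpa [hf, hu] using hF i
  obtain ⟨v, hv1, hv2⟩ := corona (k + 1) f (fun i => (hfu i).ba) hδ (by
    intro z hz
    by_cases hall : ∀ i, ‖F i z‖ < δ
    · have h1 := hlow z hz hall
      refine h1.trans ?_
      have h2 : ‖f 0 z‖ ≤ ∑ i, ‖f i z‖ :=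
        Finset.single_le_sum (f := fun i => ‖f i z‖) (fun _ _ => norm_nonneg _)
          (Finset.mem_univ 0)
      exact h2
    · push Not at hall
      obtain ⟨i, hi⟩ := hall
      refine hi.trans ?_
      have h2 : ‖f i.succ z‖ ≤ ∑ i, ‖f i z‖ :=
        Finset.single_le_sum (f := fun i => ‖f i z‖) (fun _ _ => norm_nonneg _)
          (Finset.mem_univ _)
      exact h2)
  choose b hb using fun i => exists_bd (hv1 i)
  set bA : Fin (k + 1) → HinfC := fun i => ⟨b i, Hinf_sub ⟨_, hb i⟩⟩ with hbA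
  have h1 : IsBoundaryFunction (fun z => ∑ i, f i z * v i z) (∑ i, (u i : Linf) * b i) :=
    IsBoundaryFunction.sum fun i => (hfu i).mul (hb i)
  have h2 : IsBoundaryFunction (fun z => ∑ i, f i z * v i z) (algebraMap ℂ Linf 1) :=
    (IsBoundaryFunction.const 1).congr hv2
  have h3 : ∑ i, (u i : Linf) * b i = 1 := by
    rw [h1.unique h2, map_one]
  have h4 : ∑ i, u i * bA i = 1 := by
    apply Subtype.ext
    have e : ((∑ i, u i * bA i : HinfC) : Linf) = ∑ i, (u i : Linf) * b i := by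
      rw [AddSubmonoidClass.coe_finsetSum]
      rfl
    rw [e, h3]
    rfl
  have h5 : y (∑ i, u i * bA i) = 1 := by rw [h4, map_one]
  rw [map_sum, Fin.sum_univ_succ] at h5
  have h6 : ∑ i : Fin k, y (u i.succ * bA i.succ) = 0 := by
    apply Finset.sum_eq_zero
    intro i _
    rw [map_mul]
    have : u i.succ = h i := by simp [hu]
    rw [this, hy i, zero_mul]
  rw [h6, add_zero, map_mul] at h5
  have h7 : u 0 = g := by simp [hu]
  rw [h7] at h5
  intro h0
  rw [h0, zero_mul] at h5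
  exact zero_ne_one h5

end Pool.Agent.Helper824_tan
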