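import Pool.Agent.Helper824_tan.Hk

set_option autoImplicit false

/-!
# The closure of the union of the parts through an invariant closed set is hull-kernel closed
-/

open Filter Topology Set Metric

namespace Pool.Agent.Helper824_tan

open Dyn

/-- compact pieces of the half plane -/
def QQ (j : ℕ) : Set ℂ := {v | (1 / 2 : ℝ) ^ j ≤ v.re ∧ 1 ≤ ‖v‖ ∧ ‖v‖ ≤ 2}

lemma QQ_sub {j : ℕ} {v : ℂ} (hv : v ∈ QQ j) : v ∈ RH :=
  lt_of_lt_of_le (by positivity) hv.1

lemma isCompact_QQ (j : ℕ) : IsCompact (QQ j) := by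
  apply Metric.isCompact_of_isClosed_isBounded
  · apply IsClosed.inter (isClosed_le continuous_const Complex.continuous_re)
    exact (isClosed_le continuous_const continuous_norm).inter
      (isClosed_le continuous_norm continuous_const)
  · rw [isBounded_iff_forall_norm_le]
    exact ⟨2, fun v hv => hv.2.2⟩

lemma one_mem_QQ (j : ℕ) : (1 : ℂ) ∈ QQ j := by
  refine ⟨?_, by simp, by simp⟩
  rw [Complex.one_re]
  exact pow_le_one₀ (by norm_num) (by norm_num)

/-- **The main construction.** -/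
theorem exists_sep {K : Set (Ultrafilter ℤ)} (hKp : ∀ p ∈ K, ∀ N : ℤ, {a : ℤ | N ≤ a} ∈ p)
    (hinv : ∀ p ∈ K, ∀ n, sh n p ∈ K) {k : ℕ} (F : Fin k → ℂ → ℂ) (h : Fin k → HinfC)
    (hF : ∀ i, IsBoundaryFunction (F i) (h i)) {ε : ℝ} (hε : 0 < ε)
    (hlow : ∀ (p : PP) (w : HH), p.1 ∈ K → ∃ i, 2 * ε ≤ ‖L p w (h i)‖) :
    ∃ (G : ℂ → ℂ) (g : HinfC), IsBoundaryFunction G g ∧ (∀ p w, p.1 ∈ K → L p w g = 0) ∧
      ∀ z ∈ ball (0 : ℂ) 1, (∀ i, ‖F i z‖ < ε) → 1 / 2 ≤ ‖G z‖ := by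
  classical
  set B : Set ℂ := {w | w ∈ RH ∧ ∀ i, ‖F i (cay w)‖ < ε} with hB
  set Mj : ℕ → Set ℤ := fun j => {m | ∃ v ∈ QQ j, (q m : ℂ) * v ∈ B} with hMj
  set A : ℕ → Set ℤ := fun j => {n | ∀ m ∈ Mj j, (j : ℤ) < |n - m|} with hA
  have claim1 : ∀ p ∈ K, ∀ j, Mj j ∉ p := by
    intro p hp j hmem
    set p' : PP := ⟨p, hKp p hp⟩ with hp'
    have hch : ∀ m : ℤ, ∃ v ∈ QQ j, m ∈ Mj j → (q m : ℂ) * v ∈ B := by
      intro m
      by_cases hm : m ∈ Mj j
      · obtain ⟨v, hv1, hv2⟩ := hm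
        exact ⟨v, hv1, fun _ => hv2⟩
      · exact ⟨1, one_mem_QQ j, fun h => absurd h hm⟩
    choose v hv1 hv2 using hch
    have h0 : ∀ᶠ m in (p : Filter ℤ), v m ∈ QQ j := Eventually.of_forall hv1
    have h1 : QQ j ∈ p.map v := h0
    obtain ⟨v₀, hv₀, hlim⟩ := (isCompact_QQ j).ultrafilter_le_nhds (p.map v) (le_principal_iff.2 h1)
    have hlim' : Tendsto v p (𝓝 v₀) := hlim
    have hRH : v₀ ∈ RH := QQ_sub hv₀
    have hre : 0 < v₀.re := hRH
    obtain ⟨i, hi⟩ := hlow p' ⟨v₀, hRH⟩ hp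
    obtain ⟨C, hC⟩ := (hF i).2.1
    have h2 : Tendsto (fun n => ‖F i (cay ((q n : ℂ) * v₀))‖) p (𝓝 ‖L p' ⟨v₀, hRH⟩ (h i)‖) :=
      (L_bd p' ⟨v₀, hRH⟩ (hF i)).norm
    have h3 : Tendsto (fun n => ε + 2 * C / v₀.re * ‖v n - v₀‖) p
        (𝓝 (ε + 2 * C / v₀.re * ‖v₀ - v₀‖)) :=
      ((hlim'.sub_const v₀).norm.const_mul _).const_add ε
    have h4 : ‖L p' ⟨v₀, hRH⟩ (h i)‖ ≤ ε + 2 * C / v₀.re * ‖v₀ - v₀‖ := by
      refine le_of_tendsto_of_tendsto h2 h3 ?_
      have hball : ∀ᶠ n in (p : Filter ℤ), v n ∈ ball v₀ v₀.re :=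
        hlim' (ball_mem_nhds v₀ hre)
      have hmem' : ∀ᶠ n in (p : Filter ℤ), n ∈ Mj j := hmem
      filter_upwards [hball, hmem'] with n hn1 hn2
      have h5 := lip (FC_diff (hF i).ba n) (fun w hw => hC _ (cay_mem (q_mul_mem hw n)))
        (ball_sub_RH (w := v₀)) hn1
      have h6 : ‖F i (cay ((q n : ℂ) * v n))‖ < ε := (hv2 n hn2).2 i
      calc ‖F i (cay ((q n : ℂ) * v₀))‖
          = ‖F i (cay ((q n : ℂ) * v n)) -
            (F i (cay ((q n : ℂ) * v n)) - F i (cay ((q n : ℂ) * v₀)))‖ := by congr 1; ring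
        _ ≤ ‖F i (cay ((q n : ℂ) * v n))‖ +
            ‖F i (cay ((q n : ℂ) * v n)) - F i (cay ((q n : ℂ) * v₀))‖ := norm_sub_le _ _
        _ ≤ ε + 2 * C / v₀.re * ‖v n - v₀‖ := by linarith
    rw [sub_self, norm_zero, mul_zero, add_zero] at h4
    linarith
  have claim2 : ∀ p ∈ K, ∀ j, A j ∈ p := by
    intro p hp j
    by_contra hcon
    rw [← Ultrafilter.compl_mem_iff_notMem] at hcon
    have hsub : (A j)ᶜ ⊆ ⋃ i ∈ (Finset.Icc (-(j : ℤ)) j : Set ℤ), {n : ℤ | n + i ∈ Mj j} := by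
      intro n hn
      have hn' : ¬ ∀ m ∈ Mj j, (j : ℤ) < |n - m| := hn
      push Not at hn'
      obtain ⟨m, hm, hle⟩ := hn'
      rw [abs_le] at hle
      simp only [mem_iUnion]
      refine ⟨m - n, ?_, ?_⟩
      · rw [Finset.mem_coe, Finset.mem_Icc]
        constructor <;> linarith
      · have : n + (m - n) = m := by ring
        rw [← this] at hm
        exact hm
    obtain ⟨i, -, hi⟩ := (Ultrafilter.finite_biUnion_mem_iff (Finset.finite_toSet _)).1
      (mem_of_superset hcon hsub)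
    exact claim1 (sh i p) (hinv p hp i) j hi
  obtain ⟨g0, hg1, hg2, hg3, hg4⟩ := exists_g A
  have hBA := BA_psi hg1 hg2
  obtain ⟨u, hu⟩ := exists_bd hBA
  refine ⟨fun z => g0 (psi z), ⟨u, Hinf_sub ⟨_, hu⟩⟩, hu, ?_, ?_⟩
  · intro p w hp
    set x := L p w ⟨u, Hinf_sub ⟨_, hu⟩⟩ with hx
    have h1 : Tendsto (fun n : ℤ => g0 (psi (cay ((q n : ℂ) * w.1)))) p.1 (𝓝 x) :=
      L_bd p w (u := ⟨u, Hinf_sub ⟨_, hu⟩⟩) hu
    have h2 : ∀ J : ℕ, ‖x‖ ≤ ‖bf 0 w.1‖ ^ J := by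
      intro J
      refine le_of_tendsto h1.norm ?_
      have h3 : ∀ᶠ n in (p.1 : Filter ℤ), ∀ j ∈ Finset.range (J + 6), n ∈ A j := by
        rw [Filter.eventually_all_finset]
        intro j _
        exact claim2 p.1 hp j
      have h4 : ∀ᶠ n in (p.1 : Filter ℤ), ((J + 6 : ℕ) : ℤ) ≤ n := p.2 _
      filter_upwards [h3, h4] with n hn1 hn2
      rw [psi_cay (q_mul_mem w.2 n)]
      have h5 := hg3 n (J + 6) hn2 (fun j hj => hn1 j (Finset.mem_range.2 hj)) _
        (q_mul_mem w.2 n)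
      rwa [bf_scale, sub_self, Nat.add_sub_cancel] at h5
    have h6 : Tendsto (fun J : ℕ => ‖bf 0 w.1‖ ^ J) atTop (𝓝 0) :=
      tendsto_pow_atTop_nhds_zero_of_lt_one (norm_nonneg _) (bf_zero_lt w.2)
    have h7 : ‖x‖ ≤ 0 := ge_of_tendsto h6 (Eventually.of_forall h2)
    exact norm_eq_zero.1 (le_antisymm h7 (norm_nonneg _))
  · intro z hz hall
    have hz' : ‖z‖ < 1 := by simpa using hz
    have hwB : psi z ∈ B := by
      refine ⟨psi_mem hz', fun i => ?_⟩
      rw [cay_psi hz']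
      exact hall i
    obtain ⟨m, v, hv, hv1, hv2, hmv⟩ := exists_scale (psi_mem hz')
    change 1 / 2 ≤ ‖g0 (psi z)‖
    rw [hmv]
    apply hg4 m v hv hv1 hv2
    intro j
    by_cases hj : v.re < (1 / 2 : ℝ) ^ j
    · exact Or.inl hj
    · right
      intro n hn
      apply hn m
      refine ⟨v, ⟨not_lt.1 hj, hv1, hv2⟩, ?_⟩
      rw [← hmv]
      exact hwB

theorem hk {K : Set (Ultrafilter ℤ)} (hKp : ∀ p ∈ K, ∀ N : ℤ, {a : ℤ | N ≤ a} ∈ p)
    (hinv : ∀ p ∈ K, ∀ n, sh n p ∈ K) : HullKernelClosed (EE K) := by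
  classical
  have hker : ∀ f : HinfC, (∀ (p : PP) (w : HH), p.1 ∈ K → L p w f = 0) → f ∈ kernel (EE K) := by
    intro f hf x hx
    have h3 : E0 K ⊆ {x | x f = 0} := by
      rintro _ ⟨p, v, hp, rfl⟩
      exact hf p v hp
    exact closure_minimal h3 (isClosed_eq (continuous_eval f) continuous_const) hx
  apply Subset.antisymm
  · intro x hx f hf
    exact hf x hx
  · intro y hy
    by_contra hycl
    by_cases hz : y zA = 1
    · obtain ⟨s, ε, hε, hs⟩ := basic_nhd (y := y) (S := E0 K) hycl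
      choose h F hF hhx _ using fun f : HinfC => L_approx f (ε := ε / 4) (by positivity)
      set e : Fin s.card ≃ s := s.equivFin.symm with he
      set h' : Fin s.card → HinfC := fun i =>
        h (e i) + algebraMap ℂ HinfC (-(y (h (e i)))) with hh'
      set F' : Fin s.card → ℂ → ℂ := fun i z => F (e i) z + (-(y (h (e i)))) with hF'
      have hbd : ∀ i, IsBoundaryFunction (F' i) (h' i) := fun i =>
        (hF (e i)).add (IsBoundaryFunction.const _)
      have hval : ∀ (x : M HinfC) (i : Fin s.card), x (h' i) = x (h (e i)) - y (h (e i)) := by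
        intro x i
        simp only [hh', map_add]
        rw [AlgHomClass.commutes, Algebra.algebraMap_self_apply]
        ring
      have hy0 : ∀ i, y (h' i) = 0 := fun i => by rw [hval, sub_self]
      obtain ⟨G, g, hG, hg0, hGlow⟩ := exists_sep hKp hinv F' h' hbd (ε := ε / 4) (by positivity) (by
        intro p w hp
        obtain ⟨f, hf, hfl⟩ := hs (L p w) ⟨p, w, hp, rfl⟩
        refine ⟨e.symm ⟨f, hf⟩, ?_⟩
        rw [hval, Equiv.apply_symm_apply]
        have h1 := hhx f (L p w) (L_zA p w)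
        have h2 := hhx f y hz
        have h3 : ‖L p w f - y f‖ ≤ ‖L p w f - L p w (h f)‖ + ‖L p w (h f) - y (h f)‖ +
            ‖y f - y (h f)‖ := by
          have e1 : L p w f - y f = (L p w f - L p w (h f)) + (L p w (h f) - y (h f)) -
            (y f - y (h f)) := by ring
          rw [e1]
          exact (norm_sub_le _ _).trans (by gcongr; exact norm_add_le _ _)
        linarith)
      have hne := corona_char y F' h' hbd hy0 hG (δ := min (ε / 4) (1 / 2))
        (lt_min (by positivity) (by norm_num)) (fun z hz1 hz2 =>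
          (min_le_right _ _).trans (hGlow z hz1 fun i => (hz2 i).trans_le (min_le_left _ _)))
      exact hne (hy g (hker g hg0))
    · have h1 := hy (zA - 1) (hker (zA - 1) (fun p w _ => by
        rw [map_sub, map_one, L_zA, sub_self]))
      rw [map_sub, map_one] at h1
      exact hz (sub_eq_zero.1 h1)

end Pool.Agent.Helper824_tan
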