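import Pool.Agent.Helper824_tan.Tan

set_option autoImplicit false

/-!
# The pseudohyperbolic distance for `H^∞ + C`
-/

open Filter Topology Set Metric MeasureTheory
open scoped ComplexConjugate

namespace Pool.Agent.Helper824_tan

open Dyn

lemma rho_bdd (x m : M HinfC) :
    BddAbove {r : ℝ | ∃ f : HinfC, ‖f‖ ≤ 1 ∧ m f = 0 ∧ r = ‖x f‖} := by
  refine ⟨1, ?_⟩
  rintro _ ⟨f, hf, -, rfl⟩
  exact (char_norm x f).trans hf

lemma le_rho {x m : M HinfC} {f : HinfC} (hf : ‖f‖ ≤ 1) (hm : m f = 0) : ‖x f‖ ≤ rho x m :=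
  le_csSup (rho_bdd x m) ⟨f, hf, hm, rfl⟩

lemma rho_le {x m : M HinfC} {c : ℝ} (h : ∀ f : HinfC, ‖f‖ ≤ 1 → m f = 0 → ‖x f‖ ≤ c) :
    rho x m ≤ c := by
  apply csSup_le
  · exact ⟨_, 0, by simp, map_zero m, rfl⟩
  · rintro _ ⟨f, hf, hm, rfl⟩
    exact h f hf hm

lemma rho_nonneg (x m : M HinfC) : 0 ≤ rho x m :=
  (norm_nonneg _).trans (le_rho (x := x) (m := m) (f := 0) (by simp) (map_zero m))

lemma rho_self (x : M HinfC) : rho x x = 0 := by
  apply le_antisymm _ (rho_nonneg x x)
  apply rho_le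
  intro f _ hx
  rw [hx, norm_zero]

/-- composition with Möbius transformations -/
lemma moebius (f : HinfC) (hf : ‖f‖ ≤ 1) {c : ℂ} (hc : ‖c‖ < 1) :
    ∃ g : HinfC, ‖g‖ ≤ 1 ∧ ∀ x : M HinfC, x g = (x f - c) / (1 - conj c * x f) := by
  have h1 : ‖(conj c) • f‖ < 1 := by
    rw [norm_smul, RCLike.norm_conj]
    have := norm_nonneg f
    have := norm_nonneg c
    nlinarith
  set U : HinfCˣ := Units.oneSub ((conj c) • f) h1 with hU
  have hUv : (U : HinfC) = 1 - (conj c) • f := rfl
  set g : HinfC := (f - algebraMap ℂ HinfC c) * (U⁻¹ : HinfCˣ) with hg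
  have hmul : g * (1 - (conj c) • f) = f - algebraMap ℂ HinfC c := by
    rw [hg, ← hUv, mul_assoc, Units.inv_mul, mul_one]
  refine ⟨g, ?_, ?_⟩
  · have h2 : ‖(g : Linf)‖ ≤ 1 := by
      apply norm_le_of_ae zero_le_one
      have h3 : (g : Linf) * (1 - (conj c) • (f : Linf)) = (f : Linf) - algebraMap ℂ Linf c :=
        congrArg Subtype.val hmul
      have h3' : ∀ᵐ t ∂mu, ((g : Linf) * (1 - (conj c) • (f : Linf)) : Linf) t =
          ((f : Linf) - algebraMap ℂ Linf c : Linf) t := by rw [h3]; exact ae_of_all _ fun _ => rfl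
      filter_upwards [h3', coeFn_mul (g : Linf) (1 - (conj c) • (f : Linf)),
        coeFn_sub (1 : Linf) ((conj c) • (f : Linf)), coeFn_one, coeFn_smul (conj c) (f : Linf),
        coeFn_sub (f : Linf) (algebraMap ℂ Linf c), coeFn_algebraMap c, ae_norm_le (f : Linf)]
        with t t1 t2 t3 t4 t5 t6 t7 t8
      rw [t2, t3, t4, t5, t6, t7] at t1
      have hft : ‖(f : Linf) t‖ ≤ 1 := t8.trans hf
      set a : ℂ := (f : Linf) t with ha
      have hden : ‖conj c * a‖ < 1 := by
        rw [norm_mul, RCLike.norm_conj]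
        have := norm_nonneg a
        have := norm_nonneg c
        nlinarith
      have hne : 1 - conj c * a ≠ 0 := by
        intro h0
        have : conj c * a = 1 := by linear_combination -h0
        rw [this, norm_one] at hden
        exact lt_irrefl _ hden
      have hle : ‖a - c‖ ≤ ‖1 - conj c * a‖ := by
        apply le_of_sq_le_sq _ (norm_nonneg _)
        rw [← Complex.normSq_eq_norm_sq, ← Complex.normSq_eq_norm_sq]
        have e1 : Complex.normSq (1 - conj c * a) - Complex.normSq (a - c) =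
            (1 - Complex.normSq a) * (1 - Complex.normSq c) := by
          simp only [Complex.normSq_apply, Complex.sub_re, Complex.sub_im, Complex.one_re,
            Complex.one_im, Complex.mul_re, Complex.mul_im, Complex.conj_re, Complex.conj_im]
          ring
        have e2 : Complex.normSq a ≤ 1 := by
          rw [Complex.normSq_eq_norm_sq]
          have := norm_nonneg a
          nlinarith
        have e3 : Complex.normSq c ≤ 1 := by
          rw [Complex.normSq_eq_norm_sq]
          have := norm_nonneg c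
          nlinarith
        nlinarith [mul_nonneg (sub_nonneg.2 e2) (sub_nonneg.2 e3)]
      have hpos : 0 < ‖1 - conj c * a‖ := norm_pos_iff.2 hne
      have h4 : ‖(g : Linf) t‖ * ‖1 - conj c * a‖ = ‖a - c‖ := by rw [← norm_mul, t1]
      by_contra hcon
      push Not at hcon
      nlinarith
    exact h2
  · intro x
    have h5 : x g * (1 - conj c * x f) = x f - c := by
      have := congrArg x hmul
      rw [map_mul, map_sub, map_one, map_smul, map_sub, smul_eq_mul, AlgHomClass.commutes,
        Algebra.algebraMap_self_apply] at this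
      exact this
    have hxf : ‖x f‖ ≤ 1 := (char_norm x f).trans hf
    have hden : ‖conj c * x f‖ < 1 := by
      rw [norm_mul, RCLike.norm_conj]
      have := norm_nonneg (x f)
      have := norm_nonneg c
      nlinarith
    have hne : 1 - conj c * x f ≠ 0 := by
      intro h0
      have : conj c * x f = 1 := by linear_combination -h0
      rw [this, norm_one] at hden
      exact lt_irrefl _ hden
    rw [eq_div_iff hne]
    exact h5

/-- the Gleason relation is an equivalence relation (combined form) -/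
lemma rho_trans {x y y' : M HinfC} (h1 : rho y x < 1) (h2 : rho y' x < 1) : rho y' y < 1 := by
  set r := rho y x with hr
  set s := rho y' x with hs
  have hr0 : 0 ≤ r := rho_nonneg _ _
  have hs0 : 0 ≤ s := rho_nonneg _ _
  set R2 : ℝ := 1 - (1 - s ^ 2) * (1 - r) ^ 2 with hR2
  have hR : R2 < 1 := by
    have h3 : 0 < (1 - s ^ 2) * (1 - r) ^ 2 := by
      apply mul_pos
      · nlinarith
      · have : 0 < 1 - r := by linarith
        positivity
    linarith
  have key : ∀ f : HinfC, ‖f‖ ≤ 1 → y f = 0 → ‖y' f‖ ^ 2 ≤ R2 := by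
    intro f hf hy
    set c := x f with hc
    have hc1 : ‖c‖ ≤ r := by
      have h3 : ∀ t : ℝ, t ∈ Ioo (0 : ℝ) 1 → t * ‖c‖ ≤ r := by
        intro t ht
        have hft : ‖(t : ℂ) • f‖ ≤ 1 := by
          rw [norm_smul, Complex.norm_real, Real.norm_of_nonneg ht.1.le]
          have := norm_nonneg f
          nlinarith [ht.1, ht.2]
        have hcn : ‖c‖ ≤ 1 := (char_norm x f).trans hf
        have hct : ‖(t : ℂ) * c‖ < 1 := by
          rw [norm_mul, Complex.norm_real, Real.norm_of_nonneg ht.1.le]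
          have := norm_nonneg c
          nlinarith [ht.1, ht.2]
        obtain ⟨g, hg1, hg2⟩ := moebius ((t : ℂ) • f) hft hct
        have hxg : x g = 0 := by
          rw [hg2 x, map_smul, smul_eq_mul, ← hc, sub_self, zero_div]
        have hyg : y g = -((t : ℂ) * c) := by
          rw [hg2 y, map_smul, smul_eq_mul, hy, mul_zero, mul_zero, sub_zero, div_one, zero_sub]
        have h4 := le_rho (x := y) hg1 hxg
        rw [hyg, norm_neg, norm_mul, Complex.norm_real, Real.norm_of_nonneg ht.1.le] at h4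
        exact h4
      have h5 : Tendsto (fun t : ℝ => t * ‖c‖) (𝓝[<] 1) (𝓝 (1 * ‖c‖)) :=
        ((continuous_id.mul continuous_const).tendsto 1).mono_left nhdsWithin_le_nhds
      rw [one_mul] at h5
      refine le_of_tendsto h5 ?_
      filter_upwards [Ioo_mem_nhdsLT (one_pos : (0 : ℝ) < 1)] with t ht
      exact h3 t ht
    have hclt : ‖c‖ < 1 := hc1.trans_lt h1
    obtain ⟨g, hg1, hg2⟩ := moebius f hf hclt
    have hxg : x g = 0 := by rw [hg2 x, ← hc, sub_self, zero_div]
    have h6 := le_rho (x := y') hg1 hxg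
    rw [hg2 y'] at h6
    set u := y' f with hu
    have hun : ‖u‖ ≤ 1 := (char_norm y' f).trans hf
    have hcu : ‖conj c * u‖ ≤ r := by
      rw [norm_mul, RCLike.norm_conj]
      have := norm_nonneg u
      have := norm_nonneg c
      nlinarith
    have hden : 1 - r ≤ ‖1 - conj c * u‖ := by
      have := norm_sub_norm_le (1 : ℂ) (conj c * u)
      rw [norm_one] at this
      linarith
    have hpos : 0 < ‖1 - conj c * u‖ := by linarith
    rw [norm_div, div_le_iff₀ hpos] at h6
    have e1 : ‖1 - conj c * u‖ ^ 2 - ‖u - c‖ ^ 2 = (1 - ‖u‖ ^ 2) * (1 - ‖c‖ ^ 2) := by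
      simp only [← Complex.normSq_eq_norm_sq, Complex.normSq_apply, Complex.sub_re, Complex.sub_im,
        Complex.one_re, Complex.one_im, Complex.mul_re, Complex.mul_im, Complex.conj_re,
        Complex.conj_im]
      ring
    have e2 : ‖u - c‖ ^ 2 ≤ s ^ 2 * ‖1 - conj c * u‖ ^ 2 := by
      rw [← mul_pow]
      exact pow_le_pow_left₀ (norm_nonneg _) h6 2
    have e3 : (1 - s ^ 2) * (1 - r) ^ 2 ≤ (1 - s ^ 2) * ‖1 - conj c * u‖ ^ 2 := by
      apply mul_le_mul_of_nonneg_left _ (by nlinarith)
      exact pow_le_pow_left₀ (by linarith) hden 2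
    have e4 : (1 - ‖u‖ ^ 2) * (1 - ‖c‖ ^ 2) ≤ 1 - ‖u‖ ^ 2 := by
      have h7 : 0 ≤ 1 - ‖u‖ ^ 2 := by
        have := norm_nonneg u
        nlinarith
      have h8 : 0 ≤ ‖c‖ ^ 2 := by positivity
      nlinarith
    rw [hR2]
    nlinarith
  have h3 : rho y' y ≤ Real.sqrt R2 := by
    apply rho_le
    intro f hf hy
    exact Real.le_sqrt_of_sq_le (key f hf hy)
  refine h3.trans_lt ?_
  rw [Real.sqrt_lt' one_pos]
  linarith

lemma rho_symm {x y : M HinfC} (h : rho y x < 1) : rho x y < 1 :=
  rho_trans h (by rw [rho_self]; exact one_pos)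

lemma rho_trans' {x y y' : M HinfC} (h1 : rho y x < 1) (h2 : rho y' y < 1) : rho y' x < 1 :=
  rho_trans (rho_symm h1) h2

/-- two points of the same disc are in the same part -/
lemma rho_L (p : PP) (w w' : HH) : rho (L p w) (L p w') < 1 := by
  have hre : 0 < w'.1.re := w'.2
  set T : ℂ → ℂ := fun ζ => (w'.1.re : ℂ) * ζ + (w'.1.im : ℂ) * Complex.I with hT
  have hTmem : ∀ ζ ∈ RH, T ζ ∈ RH := by
    intro ζ hζ
    have hζ' : 0 < ζ.re := hζ
    change 0 < ((w'.1.re : ℂ) * ζ + (w'.1.im : ℂ) * Complex.I).re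
    simp
    exact mul_pos hre hζ'
  set ζ₀ : ℂ := (w.1 - (w'.1.im : ℂ) * Complex.I) / (w'.1.re : ℂ) with hζ₀
  have hrec : (w'.1.re : ℂ) ≠ 0 := by exact_mod_cast hre.ne'
  have hTζ : T ζ₀ = w.1 := by
    rw [hT, hζ₀]
    field_simp
    ring
  have hζmem : ζ₀ ∈ RH := by
    have h1 : ζ₀ = ((w'.1.re⁻¹ : ℝ) : ℂ) * (w.1 - (w'.1.im : ℂ) * Complex.I) := by
      rw [hζ₀, Complex.ofReal_inv]; field_simp
    change 0 < ζ₀.re
    rw [h1, Complex.re_ofReal_mul]
    have h2 : (w.1 - (w'.1.im : ℂ) * Complex.I).re = w.1.re := by simp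
    rw [h2]
    exact mul_pos (inv_pos.2 hre) w.2
  have hT1 : T 1 = w'.1 := by
    rw [hT]
    simp only [mul_one]
    exact Complex.re_add_im _
  have hpsi0 : psi 0 = 1 := by simp [psi]
  have hz : ‖cay ζ₀‖ < 1 := cay_lt hζmem
  refine lt_of_le_of_lt (rho_le (c := ‖cay ζ₀‖) fun f hf hf0 => ?_) hz
  have hd : DifferentiableOn ℂ (fun z => Lf p f (T (psi z))) (ball 0 1) := by
    apply (Lf_diff p f).comp (t := RH)
    · apply DifferentiableOn.add_const
      exact psi_diff.const_mul _
    · intro z hz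
      exact hTmem _ (psi_mem (by simpa using hz))
  have h0 : Lf p f (T (psi 0)) = 0 := by
    rw [hpsi0, hT1, Lf_eq, hf0]
  have hmaps : MapsTo (fun z => Lf p f (T (psi z))) (ball 0 1)
      (closedBall ((fun z => Lf p f (T (psi z))) 0) 1) := by
    intro z hz
    simp only [h0]
    rw [mem_closedBall_zero_iff]
    have hm := hTmem _ (psi_mem (z := z) (by simpa using hz))
    have := L_norm p ⟨_, hm⟩ f
    rw [← Lf_eq] at this
    exact this.trans hf
  have h3 := Complex.dist_le_div_mul_dist_of_mapsTo_ball hd hmaps (z := cay ζ₀) (by simpa using hz)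
  simp only [h0, dist_zero_right, div_one, one_mul] at h3
  rw [psi_cay hζmem, hTζ, Lf_eq] at h3
  exact h3

end Pool.Agent.Helper824_tan
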