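import Pool.Agent.Helper824_tan.Hk2
import Pool.Agent.Helper824_tan.Part

set_option autoImplicit false

/-!
# A hull-kernel closed `t`-analytic set that is not the closure of a Gleason part
-/

open Filter Topology Set Metric

namespace Pool.Agent.Helper824_tan

open Dyn

/-- the point `1` of the half plane -/
noncomputable def oneH : HH := ⟨1, by change 0 < (1 : ℂ).re; simp⟩

/-- interpolating Blaschke products as members of `H^∞ + C` -/
theorem exists_beta (A : Set ℤ) : ∃ β : HinfC, ‖β‖ ≤ 1 ∧ (∀ p : PP, A ∈ p.1 → L p oneH β = 0) ∧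
    (∀ (p : PP) (w : HH), 1 ≤ ‖w.1‖ → 1 - 12 * w.1.re ≤ ‖L p w β‖) ∧
    ∀ (p : PP) (w : HH) (j : ℕ), 1 ≤ ‖w.1‖ → ‖w.1‖ ≤ 2 →
      (∀ i : ℤ, |i| ≤ j → A ∉ sh i p.1) → 1 - 16 * (1 / 2 : ℝ) ^ j ≤ ‖L p w β‖ := by
  obtain ⟨b, hb1, hb2, hb3, hb4, hb5⟩ := exists_b A
  have hBA := BA_psi hb1 hb2
  obtain ⟨u, hu⟩ := exists_bd hBA
  set β : HinfC := ⟨u, Hinf_sub ⟨_, hu⟩⟩ with hβ
  have hlim : ∀ (p : PP) (w : HH), Tendsto (fun n : ℤ => b ((q n : ℂ) * w.1)) p.1 (𝓝 (L p w β)) := by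
    intro p w
    refine (L_bd p w (u := β) hu).congr fun n => ?_
    rw [psi_cay (q_mul_mem w.2 n)]
  refine ⟨β, ?_, ?_, ?_, ?_⟩
  · exact hu.norm_le fun z hz => hb2 _ (psi_mem (by simpa using hz))
  · intro p hp
    refine tendsto_nhds_unique (hlim p oneH) (tendsto_const_nhds.congr' ?_)
    have h1 : ∀ᶠ n in (p.1 : Filter ℤ), n ∈ A := hp
    have h2 : ∀ᶠ n in (p.1 : Filter ℤ), (0 : ℤ) ≤ n := p.2 0
    filter_upwards [h1, h2] with n hn1 hn2
    have h3 : (q n : ℂ) * oneH.1 = (q n : ℂ) := by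
      change (q n : ℂ) * 1 = _
      rw [mul_one]
    rw [h3, hb3 n hn1 hn2]
  · intro p w hw
    exact ge_of_tendsto (hlim p w).norm (Eventually.of_forall fun n => hb4 n w.1 w.2 hw)
  · intro p w j hw1 hw2 hA
    refine ge_of_tendsto (hlim p w).norm ?_
    have h1 : ∀ᶠ m in (p.1 : Filter ℤ), ∀ i ∈ Finset.Icc (-(j : ℤ)) j, m + i ∉ A := by
      rw [Filter.eventually_all_finset]
      intro i hi
      rw [Finset.mem_Icc] at hi
      have h2 := hA i (abs_le.2 hi)
      have h3 : {m : ℤ | m + i ∈ A} ∉ p.1 := h2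
      have h4 := Ultrafilter.compl_mem_iff_notMem.2 h3
      exact h4
    filter_upwards [h1] with m hm
    apply hb5 m w.1 j w.2 hw1 hw2
    intro n hn
    by_contra hcon
    push Not at hcon
    rw [abs_le] at hcon
    have h5 := hm (n - m) (Finset.mem_Icc.2 ⟨by linarith, by linarith⟩)
    apply h5
    have : m + (n - m) = n := by ring
    rw [this]
    exact hn

/-- points of the closure at which `β` is small lie on the discs -/
lemma on_discs {K : Set (Ultrafilter ℤ)} (hKc : IsClosed K)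
    (hKp : ∀ p ∈ K, ∀ N : ℤ, {a : ℤ | N ≤ a} ∈ p) (hinv : ∀ p ∈ K, ∀ n, sh n p ∈ K) {β : HinfC}
    (hβ : ∀ (p : PP) (w : HH), 1 ≤ ‖w.1‖ → 1 - 12 * w.1.re ≤ ‖L p w β‖) {y : M HinfC}
    (hy : y ∈ EE K) (hyβ : ‖y β‖ < 1 / 2) :
    ∃ (p : PP) (w : HH), p.1 ∈ K ∧ 1 ≤ ‖w.1‖ ∧ ‖w.1‖ ≤ 2 ∧ y = L p w := by
  set K' : Set PP := {p | p.1 ∈ K} with hK'
  set Q : Set HH := {w | 1 / 24 ≤ w.1.re ∧ 1 ≤ ‖w.1‖ ∧ ‖w.1‖ ≤ 2} with hQ
  have hK'c : IsCompact K' := by
    rw [Subtype.isCompact_iff]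
    have : Subtype.val '' K' = K := by
      ext p
      constructor
      · rintro ⟨p, hp, rfl⟩; exact hp
      · intro hp; exact ⟨⟨p, hKp p hp⟩, hp, rfl⟩
    rw [this]
    exact hKc.isCompact
  have hQc : IsCompact Q := by
    rw [Subtype.isCompact_iff]
    have : Subtype.val '' Q = {w : ℂ | 1 / 24 ≤ w.re ∧ 1 ≤ ‖w‖ ∧ ‖w‖ ≤ 2} := by
      ext w
      constructor
      · rintro ⟨w, hw, rfl⟩; exact hw
      · intro hw
        refine ⟨⟨w, ?_⟩, hw, rfl⟩
        have := hw.1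
        change 0 < w.re
        linarith
    rw [this]
    apply Metric.isCompact_of_isClosed_isBounded
    · apply IsClosed.inter (isClosed_le continuous_const Complex.continuous_re)
      exact (isClosed_le continuous_const continuous_norm).inter
        (isClosed_le continuous_norm continuous_const)
    · rw [isBounded_iff_forall_norm_le]
      exact ⟨2, fun v hv => hv.2.2⟩
  have himg : IsCompact ((fun x : PP × HH => L x.1 x.2) '' (K' ×ˢ Q)) :=
    (hK'c.prod hQc).image L_cont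
  have hsub : {x : M HinfC | ‖x β‖ < 1 / 2} ∩ E0 K ⊆
      (fun x : PP × HH => L x.1 x.2) '' (K' ×ˢ Q) := by
    rintro _ ⟨hx, p, w, hp, rfl⟩
    obtain ⟨m, v, hv, hv1, hv2, hmv⟩ := exists_scale w.2
    have e : L p w = L (shP m p) ⟨v, hv⟩ := by
      rw [L_shift]
      congr 1
      exact Subtype.ext hmv
    have h1 := hβ (shP m p) ⟨v, hv⟩ hv1
    rw [← e] at h1
    have hx' : ‖L p w β‖ < 1 / 2 := hx
    refine ⟨(shP m p, ⟨v, hv⟩), Set.mk_mem_prod (hinv p.1 hp m) ⟨?_, hv1, hv2⟩, e.symm⟩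
    simp only at h1 ⊢
    linarith
  have hopen : IsOpen {x : M HinfC | ‖x β‖ < 1 / 2} :=
    isOpen_lt (continuous_eval β).norm continuous_const
  have h2 : y ∈ closure ({x : M HinfC | ‖x β‖ < 1 / 2} ∩ E0 K) :=
    hopen.inter_closure ⟨hyβ, hy⟩
  obtain ⟨⟨p, w⟩, ⟨hp, hw⟩, he⟩ := closure_minimal hsub himg.isClosed h2
  exact ⟨p, w, hp, hw.2.1, hw.2.2, he.symm⟩

/-- points `L p 1` in the same part belong to the same orbit -/
lemma same_orbit {p p' : PP} (h : rho (L p' oneH) (L p oneH) < 1) : ∃ n : ℤ, sh n p.1 = p'.1 := by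
  by_contra hcon
  push Not at hcon
  have h1 : ∀ i : ℤ, ∃ S : Set ℤ, S ∈ sh i p.1 ∧ S ∉ p'.1 := by
    intro i
    by_contra hS
    push Not at hS
    apply hcon i
    exact (Ultrafilter.coe_le_coe.1 (fun S hS' => hS S hS')).symm
  choose S hS1 hS2 using h1
  have key : ∀ j : ℕ, 1 - 16 * (1 / 2 : ℝ) ^ j ≤ rho (L p' oneH) (L p oneH) := by
    intro j
    set A : Set ℤ := {a | ∀ i ∈ Finset.Icc (-(j : ℤ)) j, a + i ∈ S i} with hA
    have hAp : A ∈ p.1 := by
      have : ∀ᶠ a in (p.1 : Filter ℤ), ∀ i ∈ Finset.Icc (-(j : ℤ)) j, a + i ∈ S i := by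
        rw [Filter.eventually_all_finset]
        intro i _
        exact hS1 i
      exact this
    obtain ⟨β, hβ1, hβ2, -, hβ4⟩ := exists_beta A
    refine (hβ4 p' oneH j ?_ ?_ ?_).trans (le_rho hβ1 (hβ2 p hAp))
    · change 1 ≤ ‖(1 : ℂ)‖; simp
    · change ‖(1 : ℂ)‖ ≤ 2; simp
    · intro i hi hmem
      have hmem' : {m : ℤ | m + i ∈ A} ∈ p'.1 := hmem
      apply hS2 (-i)
      refine mem_of_superset hmem' fun m hm => ?_
      have h3 : m + i ∈ A := hm
      have h4 := h3 (-i) (by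
        rw [Finset.mem_Icc]
        rw [abs_le] at hi
        constructor <;> linarith)
      rwa [add_neg_cancel_right] at h4
  have h5 : Tendsto (fun j : ℕ => 1 - 16 * (1 / 2 : ℝ) ^ j) atTop (𝓝 (1 - 16 * 0)) :=
    ((tendsto_pow_atTop_nhds_zero_of_lt_one (by norm_num) (by norm_num)).const_mul 16).const_sub 1
  have h6 := le_of_tendsto' h5 key
  linarith

theorem main : ∃ E : Set (M HinfC), HullKernelClosed E ∧ TAnalytic E ∧ E.Nontrivial ∧
    ∀ x : M HinfC, E ≠ closure (gleasonPart x) := by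
  obtain ⟨K, hKc, hKp, hinv, htr, A, hA1, hA2⟩ := dyn
  refine ⟨EE K, hk hKp hinv, tan hKp hinv htr, ?_, ?_⟩
  · obtain ⟨p₀, hp₀, -⟩ := hA1 (fun _ => true)
    set p : PP := ⟨p₀, hKp p₀ hp₀⟩ with hp
    obtain ⟨β, -, hβ2, hβ3, -⟩ := exists_beta univ
    have hw : (⟨1 / 24, 1⟩ : ℂ) ∈ RH := by
      change (0 : ℝ) < 1 / 24
      norm_num
    set w : HH := ⟨⟨1 / 24, 1⟩, hw⟩ with hwdef
    refine ⟨L p oneH, subset_closure ⟨p, oneH, hp₀, rfl⟩, L p w,
      subset_closure ⟨p, w, hp₀, rfl⟩, fun heq => ?_⟩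
    have h1 := hβ2 p univ_mem
    have h2 := hβ3 p w (by
      have := Complex.abs_im_le_norm (w.1)
      have h3 : w.1.im = 1 := rfl
      rw [h3, abs_one] at this
      exact this)
    rw [← heq, h1, norm_zero] at h2
    have h4 : w.1.re = 1 / 24 := rfl
    rw [h4] at h2
    norm_num at h2
  · intro x hE
    have hpart : gleasonPart x ⊆ EE K := by rw [hE]; exact subset_closure
    have h1 : ∀ d : ℕ → Bool, ∃ r : PP, r.1 ∈ K ∧ A d ∈ r.1 ∧ rho (L r oneH) x < 1 := by
      intro d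
      obtain ⟨p₀, hp₀, hpA⟩ := hA1 d
      set p : PP := ⟨p₀, hKp p₀ hp₀⟩ with hp
      obtain ⟨β, hβ1, hβ2, hβ3, hβ4⟩ := exists_beta (A d)
      have h2 := hβ2 p hpA
      have h3 : L p oneH ∈ closure (gleasonPart x) := by
        rw [← hE]; exact subset_closure ⟨p, oneH, hp₀, rfl⟩
      have hopen : IsOpen {x : M HinfC | ‖x β‖ < 1 / 2} :=
        isOpen_lt (continuous_eval β).norm continuous_const
      obtain ⟨y, hy1, hy2⟩ := mem_closure_iff.1 h3 _ hopen (by
        change ‖L p oneH β‖ < 1 / 2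
        rw [h2, norm_zero]; norm_num)
      have hy1' : ‖y β‖ < 1 / 2 := hy1
      obtain ⟨r, w, hr, hw1, hw2, rfl⟩ := on_discs hKc hKp hinv hβ3 (hpart hy2) hy1'
      have h4 : ∃ i : ℤ, A d ∈ sh i r.1 := by
        by_contra hcon
        push Not at hcon
        have h5 := hβ4 r w 5 hw1 hw2 (fun i _ => hcon i)
        norm_num at h5
        linarith
      obtain ⟨i, hi⟩ := h4
      refine ⟨shP i r, hinv r.1 hr i, hi, ?_⟩
      rw [L_shift]
      exact rho_trans' (show rho (L r w) x < 1 from hy2) (rho_L r _ _)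
    choose r hrK hrA hrx using h1
    have h2 : ∀ d, ∃ n : ℤ, sh n (r (fun _ => true)).1 = (r d).1 := fun d =>
      same_orbit (rho_trans (hrx (fun _ => true)) (hrx d))
    choose n hn using h2
    have hinj : Function.Injective n := by
      intro d d' hdd
      by_contra hne
      have h3 : (r d).1 = (r d').1 := by rw [← hn d, ← hn d', hdd]
      exact hA2 d d' hne (r d).1 (hrK d) (hrA d) (by rw [h3]; exact hrA d')
    have hcount : Countable (ℕ → Bool) := hinj.countable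
    have h4 : ¬ Countable (ℕ → Bool) := by
      intro hc
      obtain ⟨f, hf⟩ := hc.exists_injective_nat
      have hg : Function.Injective (fun s : Set ℕ => f (fun k => by classical exact decide (k ∈ s))) := by
        intro s t hst
        have h5 := hf hst
        ext k
        have h6 := congrFun h5 k
        simpa using h6
      exact Function.cantor_injective _ hg
    exact h4 hcount

end Pool.Agent.Helper824_tan
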