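import Pool.Agent.Helper824_tan.Alg
import Pool.Agent.Helper824_tan.Ana
import Pool.Agent.Helper824_tan.Dyn

set_option autoImplicit false

/-!
# The characters `f ↦ lim f(2^n w)` of `H^∞ + C`
-/

open Filter Topology Set Metric

namespace Pool.Agent.Helper824_tan

open Dyn

/-- ultrafilters on `ℤ` that contain all half lines -/
abbrev PP : Type := {p : Ultrafilter ℤ // ∀ N : ℤ, {a : ℤ | N ≤ a} ∈ p}

/-- the right half plane as a type -/
abbrev HH : Type := {w : ℂ // w ∈ RH}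

lemma cay_sub {w : ℂ} (hw : w ∈ RH) : ‖cay w - 1‖ ≤ 2 / w.re := by
  have h0 := add_one_ne hw
  have hre : 0 < w.re := hw
  have e : cay w - 1 = -2 / (w + 1) := by
    unfold cay
    field_simp
    ring
  rw [e, norm_div, norm_neg, Complex.norm_two]
  apply div_le_div_of_nonneg_left (by norm_num) hre
  have h1 := Complex.re_le_norm (w + 1)
  rw [Complex.add_re, Complex.one_re] at h1
  linarith

lemma q_ge (n : ℤ) : (n : ℝ) ≤ q n := by
  rcases le_total n 0 with hn | hn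
  · exact (by exact_mod_cast hn : (n : ℝ) ≤ 0).trans (q_pos n).le
  · obtain ⟨k, rfl⟩ := Int.eq_ofNat_of_zero_le hn
    unfold q
    rw [zpow_natCast, Int.cast_natCast]
    exact_mod_cast Nat.lt_two_pow_self.le

lemma tendsto_cay (p : PP) (w : HH) :
    Tendsto (fun n : ℤ => cay ((q n : ℂ) * w.1)) p.1 (𝓝 1) := by
  rw [Metric.tendsto_nhds]
  intro ε hε
  have hre : 0 < w.1.re := w.2
  obtain ⟨N, hN⟩ := exists_nat_gt (2 / (ε * w.1.re))
  filter_upwards [p.2 N] with n hn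
  have hn' : (N : ℤ) ≤ n := hn
  have h1 : (N : ℝ) ≤ q n := le_trans (by exact_mod_cast hn') (q_ge n)
  rw [dist_eq_norm]
  refine (cay_sub (q_mul_mem w.2 n)).trans_lt ?_
  rw [Complex.re_ofReal_mul]
  have h2 : 2 / (ε * w.1.re) < q n := hN.trans_le h1
  rw [div_lt_iff₀ (by positivity)] at h2
  rw [div_lt_iff₀ (mul_pos (q_pos n) hre)]
  linarith

lemma exists_L (p : PP) (w : HH) : ∃ χ : M HinfC, ∀ u : HinfC,
    Tendsto (fun n : ℤ => P (cay ((q n : ℂ) * w.1)) (u : Linf)) p.1 (𝓝 (χ u)) :=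
  exists_char p.1 _ (Eventually.of_forall fun n => cay_lt (q_mul_mem w.2 n)) (tendsto_cay p w)

/-- the characters `f ↦ lim f(2^n w)` -/
noncomputable def L (p : PP) (w : HH) : M HinfC := (exists_L p w).choose

lemma L_spec (p : PP) (w : HH) (u : HinfC) :
    Tendsto (fun n : ℤ => P (cay ((q n : ℂ) * w.1)) (u : Linf)) p.1 (𝓝 (L p w u)) :=
  (exists_L p w).choose_spec u

lemma L_bd (p : PP) (w : HH) {F : ℂ → ℂ} {u : HinfC} (h : IsBoundaryFunction F u) :
    Tendsto (fun n : ℤ => F (cay ((q n : ℂ) * w.1))) p.1 (𝓝 (L p w u)) := by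
  refine (L_spec p w u).congr fun n => ?_
  exact P_bd h (cay_lt (q_mul_mem w.2 n))

lemma L_zA (p : PP) (w : HH) : L p w zA = 1 :=
  tendsto_nhds_unique (L_bd p w (u := zA) zz_one_bd) (tendsto_cay p w)

lemma L_approx (f : HinfC) {ε : ℝ} (hε : 0 < ε) : ∃ (h : HinfC) (F : ℂ → ℂ),
    IsBoundaryFunction F h ∧ (∀ x : M HinfC, x zA = 1 → ‖x f - x h‖ ≤ ε) ∧
    ∀ p w, ‖L p w f - L p w h‖ ≤ ε := by
  obtain ⟨h, ⟨F, hF⟩, hh⟩ := fibre_approx f hε
  exact ⟨h, F, hF, hh, fun p w => hh _ (L_zA p w)⟩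

/-- the shift on `PP` -/
def shP (m : ℤ) (p : PP) : PP := ⟨sh m p.1, fun N => by
  rw [mem_sh]
  filter_upwards [p.2 (N - m)] with a ha
  have h1 : N - m ≤ a := ha
  have h2 : N ≤ a + m := by linarith
  exact h2⟩

/-- scaling by `2 ^ m` -/
noncomputable def qH (m : ℤ) (w : HH) : HH := ⟨(q m : ℂ) * w.1, q_mul_mem w.2 m⟩

lemma L_shift (m : ℤ) (p : PP) (w : HH) : L (shP m p) w = L p (qH m w) := by
  apply WeakDual.CharacterSpace.ext
  intro u
  have h1 : Tendsto (fun n : ℤ => P (cay ((q n : ℂ) * w.1)) (u : Linf))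
      (p.1.map (fun a => a + m) : Ultrafilter ℤ) (𝓝 (L (shP m p) w u)) := L_spec (shP m p) w u
  rw [Ultrafilter.coe_map, tendsto_map'_iff] at h1
  refine tendsto_nhds_unique h1 ((L_spec p (qH m w) u).congr fun n => ?_)
  simp only [Function.comp, qH]
  rw [q_add, Complex.ofReal_mul, mul_assoc]

/-- the function `w ↦ L p w f` on the half plane -/
noncomputable def Lf (p : PP) (f : HinfC) (w : ℂ) : ℂ := by
  classical
  exact if h : w ∈ RH then L p ⟨w, h⟩ f else 0

lemma Lf_eq (p : PP) (f : HinfC) (w : HH) : Lf p f w.1 = L p w f := by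
  unfold Lf
  rw [dif_pos w.2]

lemma L_norm (p : PP) (w : HH) (f : HinfC) : ‖L p w f‖ ≤ ‖f‖ := char_norm _ _

lemma FC_diff {F : ℂ → ℂ} (h : BA F) (n : ℤ) :
    DifferentiableOn ℂ (fun w => F (cay ((q n : ℂ) * w))) RH := by
  apply h.diff.comp (t := ball (0 : ℂ) 1)
  · apply cay_diff.comp (t := RH)
    · exact ((differentiable_const _).mul differentiable_id).differentiableOn
    · intro w hw
      exact q_mul_mem hw n
  · intro w hw
    exact cay_mem (q_mul_mem hw n)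

lemma Lf_diff (p : PP) (f : HinfC) : DifferentiableOn ℂ (Lf p f) RH := by
  have key : ∀ (h : HinfC) (F : ℂ → ℂ), IsBoundaryFunction F h →
      DifferentiableOn ℂ (Lf p h) RH := by
    intro h F hF
    obtain ⟨C, hC⟩ := hF.2.1
    exact ulim_diff p.1 isOpen_RH (FC_diff hF.ba)
      (fun n w hw => hC _ (cay_mem (q_mul_mem hw n)))
      (fun w hw => by
        have := L_bd p ⟨w, hw⟩ hF
        rw [← Lf_eq] at this
        exact this)
  choose h F hF _ hh using fun k : ℕ => L_approx f (ε := 1 / ((k : ℝ) + 1)) (by positivity)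
  refine ulim_diff (hyperfilter ℕ) isOpen_RH (f := fun k => Lf p (h k)) (C := ‖f‖ + 1)
    (fun k => key (h k) (F k) (hF k)) ?_ ?_
  · intro k w hw
    have h1 := hh k p ⟨w, hw⟩
    have h2 := L_norm p ⟨w, hw⟩ f
    have h3 : 1 / ((k : ℝ) + 1) ≤ 1 := by
      rw [div_le_one (by positivity)]
      have : (0 : ℝ) ≤ k := Nat.cast_nonneg k
      linarith
    have h4 : Lf p (h k) w = L p ⟨w, hw⟩ f - (L p ⟨w, hw⟩ f - L p ⟨w, hw⟩ (h k)) := by
      rw [← Lf_eq p (h k) ⟨w, hw⟩]; ring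
    rw [h4]
    exact (norm_sub_le _ _).trans (by linarith)
  · intro w hw
    have h5 : Tendsto (fun k : ℕ => 1 / ((k : ℝ) + 1)) atTop (𝓝 0) :=
      tendsto_one_div_add_atTop_nhds_zero_nat
    have h6 : Tendsto (fun k => Lf p (h k) w) atTop (𝓝 (Lf p f w)) := by
      rw [tendsto_iff_norm_sub_tendsto_zero]
      refine squeeze_zero (fun _ => norm_nonneg _) (fun k => ?_) h5
      rw [norm_sub_rev, Lf_eq p (h k) ⟨w, hw⟩, Lf_eq p f ⟨w, hw⟩]
      exact hh k p ⟨w, hw⟩
    refine h6.mono_left ?_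
    rw [← Nat.cofinite_eq_atTop]
    exact hyperfilter_le_cofinite

lemma L_cont_eval (f : HinfC) : Continuous fun x : PP × HH => L x.1 x.2 f := by
  have key : ∀ (h : HinfC) (F : ℂ → ℂ), IsBoundaryFunction F h →
      Continuous fun x : PP × HH => L x.1 x.2 h := by
    intro h F hF
    obtain ⟨C, hC⟩ := hF.2.1
    have hC0 : 0 ≤ C := (norm_nonneg _).trans (hC 0 (by simp))
    rw [continuous_iff_continuousAt]
    rintro ⟨p₀, w₀⟩
    rw [ContinuousAt, Metric.tendsto_nhds]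
    intro ε hε
    have hre : 0 < w₀.1.re := w₀.2
    set S : Set ℤ := {n | ‖F (cay ((q n : ℂ) * w₀.1)) - L p₀ w₀ h‖ < ε / 4} with hS
    have hSp : S ∈ p₀.1 := by
      have := L_bd p₀ w₀ hF
      rw [Metric.tendsto_nhds] at this
      filter_upwards [this (ε / 4) (by positivity)] with n hn
      rwa [dist_eq_norm] at hn
    have hV : ∀ᶠ x : PP × HH in 𝓝 (p₀, w₀), S ∈ x.1.1 := by
      have ho : IsOpen {x : PP × HH | S ∈ x.1.1} :=
        (ultrafilter_isOpen_basic S).preimage (continuous_subtype_val.comp continuous_fst)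
      exact ho.mem_nhds hSp
    set r : ℝ := min w₀.1.re (ε * w₀.1.re / (8 * (C + 1))) with hr
    have hr0 : 0 < r := lt_min hre (by positivity)
    have hW : ∀ᶠ x : PP × HH in 𝓝 (p₀, w₀), ‖x.2.1 - w₀.1‖ < r := by
      have ho : IsOpen {x : PP × HH | ‖x.2.1 - w₀.1‖ < r} :=
        isOpen_lt (by fun_prop) continuous_const
      exact ho.mem_nhds (by
        change ‖w₀.1 - w₀.1‖ < r
        rw [sub_self, norm_zero]; exact hr0)
    filter_upwards [hV, hW] with x hx1 hx2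
    obtain ⟨p, w⟩ := x
    simp only at hx1 hx2 ⊢
    have h1 : ∀ n : ℤ, ‖F (cay ((q n : ℂ) * w.1)) - F (cay ((q n : ℂ) * w₀.1))‖ ≤ ε / 4 := by
      intro n
      have h2 := lip (FC_diff hF.ba n) (fun w hw => hC _ (cay_mem (q_mul_mem hw n)))
        (ball_sub_RH (w := w₀.1)) (z := w.1) (by
          rw [mem_ball, dist_eq_norm]; exact hx2.trans_le (min_le_left _ _))
      have h3 : ‖w.1 - w₀.1‖ ≤ ε * w₀.1.re / (8 * (C + 1)) := hx2.le.trans (min_le_right _ _)
      calc _ ≤ 2 * C / w₀.1.re * ‖w.1 - w₀.1‖ := h2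
        _ ≤ 2 * C / w₀.1.re * (ε * w₀.1.re / (8 * (C + 1))) :=
          mul_le_mul_of_nonneg_left h3 (by positivity)
        _ = ε / 4 * (C / (C + 1)) := by field_simp; ring
        _ ≤ ε / 4 * 1 := by
          apply mul_le_mul_of_nonneg_left _ (by positivity)
          rw [div_le_one (by positivity)]; linarith
        _ = ε / 4 := mul_one _
    have h4 : ‖L p w h - L p w₀ h‖ ≤ ε / 4 :=
      le_of_tendsto ((L_bd p w hF).sub (L_bd p w₀ hF)).norm (Eventually.of_forall h1)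
    have h5 : ‖L p w₀ h - L p₀ w₀ h‖ ≤ ε / 4 := by
      refine le_of_tendsto ((L_bd p w₀ hF).sub_const _).norm ?_
      have hx1' : ∀ᶠ n in (p.1 : Filter ℤ), n ∈ S := hx1
      filter_upwards [hx1'] with n hn
      exact (show ‖F (cay ((q n : ℂ) * w₀.1)) - L p₀ w₀ h‖ < ε / 4 from hn).le
    rw [dist_eq_norm]
    calc ‖L p w h - L p₀ w₀ h‖ = ‖(L p w h - L p w₀ h) + (L p w₀ h - L p₀ w₀ h)‖ := by
          congr 1; ring
      _ ≤ ‖L p w h - L p w₀ h‖ + ‖L p w₀ h - L p₀ w₀ h‖ := norm_add_le _ _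
      _ < ε := by linarith
  refine continuous_of_uniform_approx_of_continuous fun u hu => ?_
  obtain ⟨ε, hε, hεu⟩ := Metric.mem_uniformity_dist.1 hu
  obtain ⟨h, F, hF, -, hh⟩ := L_approx f (ε := ε / 2) (by positivity)
  refine ⟨_, key h F hF, fun y => hεu ?_⟩
  rw [dist_eq_norm]
  exact (hh y.1 y.2).trans_lt (by linarith)

lemma L_cont : Continuous fun x : PP × HH => L x.1 x.2 := by
  refine continuous_induced_rng.2 (WeakDual.continuous_of_continuous_eval fun f => ?_)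
  exact L_cont_eval f

end Pool.Agent.Helper824_tan
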