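import Pool.Agent.Helper824_tan.Map

set_option autoImplicit false

/-!
# The closure of the union of the parts through a topologically transitive set is `t`-analytic
-/

open Filter Topology Set Metric

namespace Pool.Agent.Helper824_tan

open Dyn

/-- the union of the discs `{L p w : w}`, `p ∈ K` -/
def E0 (K : Set (Ultrafilter ℤ)) : Set (M HinfC) := {x | ∃ (p : PP) (w : HH), p.1 ∈ K ∧ x = L p w}

/-- its closure -/
def EE (K : Set (Ultrafilter ℤ)) : Set (M HinfC) := closure (E0 K)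

lemma isPreconnected_RH : IsPreconnected RH := (convex_halfSpace_re_gt 0).isPreconnected

lemma continuous_eval (f : HinfC) : Continuous fun x : M HinfC => x f :=
  (WeakDual.eval_continuous f).comp continuous_subtype_val

lemma Lf_zero (q : PP) (f : HinfC) {O : Set HH} (hO : IsOpen O) {w : HH} (hw : w ∈ O)
    (h : ∀ v ∈ O, L q v f = 0) (v : HH) : L q v f = 0 := by
  have ha : AnalyticOnNhd ℂ (Lf q f) RH := (Lf_diff q f).analyticOnNhd isOpen_RH
  have hev : Lf q f =ᶠ[𝓝 w.1] 0 := by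
    have h1 : Subtype.val '' O ∈ 𝓝 w.1 :=
      (isOpen_RH.isOpenEmbedding_subtypeVal.isOpenMap O hO).mem_nhds ⟨w, hw, rfl⟩
    filter_upwards [h1] with z hz
    obtain ⟨v, hv, rfl⟩ := hz
    rw [Lf_eq, h v hv]; rfl
  have h2 := ha.eqOn_zero_of_preconnected_of_eventuallyEq_zero isPreconnected_RH w.2 hev
  have h3 := h2 v.2
  rw [Lf_eq] at h3
  exact h3

lemma qH_neg (n : ℤ) (v : HH) : qH n (qH (-n) v) = v := by
  apply Subtype.ext
  simp only [qH]
  rw [← mul_assoc, ← Complex.ofReal_mul, ← q_add, add_neg_cancel, q_zero, Complex.ofReal_one,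
    one_mul]

lemma L_cont_left (v : HH) (f : HinfC) : Continuous fun y : PP => L y v f := by
  have h1 : Continuous fun y : PP => (y, v) := by fun_prop
  have h2 := (L_cont_eval f).comp h1
  simp only [Function.comp_def] at h2
  exact h2

lemma isOpen_ne_left (v : HH) (f : HinfC) : IsOpen {y : PP | L y v f ≠ 0} :=
  isOpen_ne_fun (L_cont_left v f) continuous_const

theorem tan {K : Set (Ultrafilter ℤ)} (hKp : ∀ p ∈ K, ∀ N : ℤ, {a : ℤ | N ≤ a} ∈ p)
    (hinv : ∀ p ∈ K, ∀ n, sh n p ∈ K)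
    (htr : ∀ V O : Set (Ultrafilter ℤ), IsOpen V → IsOpen O → (V ∩ K).Nonempty →
      (O ∩ K).Nonempty → ∃ p ∈ O ∩ K, ∃ n, sh n p ∈ V) : TAnalytic (EE K) := by
  intro f U hU hne hf
  obtain ⟨x₀, hx₀U, hx₀⟩ := hne
  obtain ⟨x, hxU, p, w, hp, rfl⟩ := mem_closure_iff.1 hx₀ U hU hx₀U
  have h1 : IsOpen ((fun x : PP × HH => L x.1 x.2) ⁻¹' U) := hU.preimage L_cont
  obtain ⟨V, O, hV, hO, hpV, hwO, hsub⟩ := isOpen_prod_iff.1 h1 p w hxU
  obtain ⟨V', hV', rfl⟩ := isOpen_induced_iff.1 hV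
  have h2 : ∀ q : PP, q.1 ∈ V' → q.1 ∈ K → ∀ v, L q v f = 0 := by
    intro q hqV hqK
    refine Lf_zero q f hO hwO fun v hv => ?_
    have h7 : (q, v) ∈ (fun x : PP × HH => L x.1 x.2) ⁻¹' U := hsub (Set.mk_mem_prod hqV hv)
    have h8 : L q v ∈ E0 K := ⟨q, v, hqK, rfl⟩
    exact hf (L q v) ⟨h7, subset_closure h8⟩
  have h3 : E0 K ⊆ {x | x f = 0} := by
    rintro _ ⟨q, v, hq, rfl⟩
    by_contra hne
    have h4 : IsOpen {y : PP | L y v f ≠ 0} := isOpen_ne_left v f
    obtain ⟨O', hO', hO'e⟩ := isOpen_induced_iff.1 h4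
    have hqO : q.1 ∈ O' := by
      have : q ∈ Subtype.val ⁻¹' O' := by rw [hO'e]; exact hne
      exact this
    obtain ⟨p', ⟨hp'O, hp'K⟩, n, hn⟩ := htr V' O' hV' hO' ⟨p.1, hpV, hp⟩ ⟨q.1, hqO, hq⟩
    set P' : PP := ⟨p', hKp p' hp'K⟩ with hP'
    have h5 : L P' v f ≠ 0 := by
      have : P' ∈ Subtype.val ⁻¹' O' := hp'O
      rw [hO'e] at this
      exact this
    apply h5
    have h6 := h2 (shP n P') hn (hinv p' hp'K n) (qH (-n) v)
    rwa [L_shift, qH_neg] at h6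
  exact fun x hx => closure_minimal h3 (isClosed_eq (continuous_eval f) continuous_const) hx

end Pool.Agent.Helper824_tan
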